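import Mathlib

/-!
Induced paths as lists of points: `IP adj a b L` says that `L` is (the list of vertices of) an
induced path from `a` to `b` for the relation `adj`.
-/

namespace Pool.Agent.Lib.MP_1a3405_co.Sn

/-- `L` is an induced path from `a` to `b`. -/
inductive IP {V : Type*} (adj : V → V → Prop) : V → V → List V → Prop
  | single (a : V) : IP adj a a [a]
  | cons {a b e : V} {L : List V} : adj a b → IP adj b e L →
      (∀ c ∈ L, c ≠ a ∧ (adj a c → c = b)) → IP adj a e (a :: L)

namespace IP

variable {V W : Type*} {adj : V → V → Prop}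

theorem left_mem {a b : V} {L : List V} (h : IP adj a b L) : a ∈ L := by
  cases h <;> simp

theorem right_mem {a b : V} {L : List V} (h : IP adj a b L) : b ∈ L := by
  induction h with
  | single a => simp
  | cons _ _ _ ih => exact List.mem_cons_of_mem _ ih

theorem append {a b c d : V} {L₁ L₂ : List V} (h₁ : IP adj a b L₁) (h₂ : IP adj c d L₂)
    (hbc : adj b c) (hx : ∀ x ∈ L₁, ∀ y ∈ L₂, x ≠ y ∧ (adj x y → x = b ∧ y = c)) :
    IP adj a d (L₁ ++ L₂) := by
  induction h₁ with
  | single a =>
    refine IP.cons hbc h₂ fun y hy => ?_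
    have := hx a (by simp) y hy
    exact ⟨this.1.symm, fun h => (this.2 h).2⟩
  | @cons a b' e L hab hL hc ih =>
    rw [List.cons_append]
    refine IP.cons hab (ih hbc fun x hxL y hy => hx x (List.mem_cons_of_mem _ hxL) y hy) ?_
    intro y hy
    rw [List.mem_append] at hy
    rcases hy with hy | hy
    · exact hc y hy
    · have h3 := hx a (by simp) y hy
      refine ⟨h3.1.symm, fun h => ?_⟩
      exact absurd (h3.2 h).1.symm (hc e hL.right_mem).1

theorem snoc {a b c : V} {L : List V} (h₁ : IP adj a b L) (hbc : adj b c)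
    (hx : ∀ x ∈ L, x ≠ c ∧ (adj x c → x = b)) : IP adj a c (L ++ [c]) := by
  refine h₁.append (IP.single c) hbc fun x hxL y hy => ?_
  rw [List.mem_singleton] at hy
  subst hy
  exact ⟨(hx x hxL).1, fun h => ⟨(hx x hxL).2 h, rfl⟩⟩

theorem reverse (hs : ∀ x y, adj x y → adj y x) {a b : V} {L : List V} (h : IP adj a b L) :
    IP adj b a L.reverse := by
  induction h with
  | single a => simpa using IP.single a
  | @cons a b' e L hab hL hc ih =>
    rw [List.reverse_cons]
    refine ih.snoc (hs _ _ hab) fun x hx => ?_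
    rw [List.mem_reverse] at hx
    exact ⟨(hc x hx).1, fun h => (hc x hx).2 (hs _ _ h)⟩

theorem map {adj' : W → W → Prop} (φ : V → W) (hφ : Function.Injective φ)
    (ha : ∀ x y, adj' (φ x) (φ y) ↔ adj x y) {a b : V} {L : List V} (h : IP adj a b L) :
    IP adj' (φ a) (φ b) (L.map φ) := by
  induction h with
  | single a => simpa using IP.single (adj := adj') (φ a)
  | @cons a b' e L hab hL hc ih =>
    rw [List.map_cons]
    refine IP.cons ((ha _ _).2 hab) ih fun c hcm => ?_
    obtain ⟨c, hcL, rfl⟩ := List.mem_map.1 hcm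
    have := hc c hcL
    exact ⟨fun h => this.1 (hφ h), fun h => by rw [this.2 ((ha _ _).1 h)]⟩

/-- The positions along an induced path. -/
theorem exists_pos (hirr : ∀ x, ¬ adj x x) (hs : ∀ x y, adj x y → adj y x) {a b : V} {L : List V}
    (h : IP adj a b L) : ∃ τ : V → ℤ, τ a = 1 ∧ τ b = L.length ∧
      (∀ p ∈ L, 1 ≤ τ p ∧ τ p ≤ L.length) ∧ (∀ p ∈ L, ∀ q ∈ L, τ p = τ q → p = q) ∧
      (∀ p ∈ L, ∀ q ∈ L, adj p q → τ q = τ p + 1 ∨ τ p = τ q + 1) ∧
      (∀ p ∈ L, p ≠ b → ∃ q ∈ L, adj p q ∧ τ q = τ p + 1) ∧
      (∀ p ∈ L, p ≠ a → ∃ q ∈ L, adj p q ∧ τ p = τ q + 1) := by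
  classical
  induction h with
  | single a =>
    refine ⟨fun _ => 1, rfl, by simp, by simp, by simp, ?_, by simp, by simp⟩
    intro p hp q hq hpq
    rw [List.mem_singleton] at hp hq
    subst hp; subst hq
    exact absurd hpq (hirr _)
  | @cons a b' e L hab hL hc ih =>
    obtain ⟨τ, h1, h2, h3, h4, h5, h6, h7⟩ := ih
    have hne : ∀ p ∈ L, p ≠ a := fun p hp => (hc p hp).1
    have hv : ∀ p ∈ L, (if p = a then (1 : ℤ) else τ p + 1) = τ p + 1 := fun p hp =>
      if_neg (hne p hp)
    refine ⟨fun p => if p = a then 1 else τ p + 1, by simp, ?_, ?_, ?_, ?_, ?_, ?_⟩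
    · show (if e = a then (1 : ℤ) else τ e + 1) = _
      rw [hv e hL.right_mem, h2]
      simp
    · intro p hp
      show 1 ≤ (if p = a then (1 : ℤ) else τ p + 1) ∧
        (if p = a then (1 : ℤ) else τ p + 1) ≤ (a :: L).length
      rw [List.length_cons]
      push_cast
      split_ifs with hpa
      · constructor <;> omega
      · have := h3 p ((List.mem_cons.1 hp).resolve_left hpa)
        omega
    · intro p hp q hq hpq
      simp only at hpq
      rcases List.mem_cons.1 hp with rfl | hp'
      · rcases List.mem_cons.1 hq with rfl | hq'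
        · rfl
        · rw [if_pos rfl, hv q hq'] at hpq
          have := h3 q hq'
          omega
      · rcases List.mem_cons.1 hq with rfl | hq'
        · rw [if_pos rfl, hv p hp'] at hpq
          have := h3 p hp'
          omega
        · rw [hv p hp', hv q hq'] at hpq
          exact h4 p hp' q hq' (by omega)
    · intro p hp q hq hpq
      simp only
      rcases List.mem_cons.1 hp with rfl | hp'
      · rcases List.mem_cons.1 hq with rfl | hq'
        · exact absurd hpq (hirr _)
        · have := (hc q hq').2 hpq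
          subst this
          left
          rw [if_pos rfl, hv _ hq', h1]
      · rcases List.mem_cons.1 hq with rfl | hq'
        · have := (hc p hp').2 (hs _ _ hpq)
          subst this
          right
          rw [if_pos rfl, hv _ hp', h1]
        · rw [hv p hp', hv q hq']
          rcases h5 p hp' q hq' hpq with h | h
          · left; omega
          · right; omega
    · intro p hp hpe
      rcases List.mem_cons.1 hp with rfl | hp'
      · refine ⟨b', List.mem_cons_of_mem _ hL.left_mem, hab, ?_⟩
        show (if b' = p then (1 : ℤ) else τ b' + 1) = (if p = p then (1 : ℤ) else τ p + 1) + 1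
        rw [if_pos rfl, hv b' hL.left_mem, h1]
      · obtain ⟨q, hq, hpq, hτ⟩ := h6 p hp' hpe
        refine ⟨q, List.mem_cons_of_mem _ hq, hpq, ?_⟩
        simp only
        rw [hv p hp', hv q hq, hτ]
    · intro p hp hpa
      have hp' := (List.mem_cons.1 hp).resolve_left hpa
      by_cases hpb : p = b'
      · subst hpb
        refine ⟨a, by simp, hs _ _ hab, ?_⟩
        show (if p = a then (1 : ℤ) else τ p + 1) = (if a = a then (1 : ℤ) else τ a + 1) + 1
        rw [if_neg hpa, if_pos rfl, h1]
      · obtain ⟨q, hq, hpq, hτ⟩ := h7 p hp' hpb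
        refine ⟨q, List.mem_cons_of_mem _ hq, hpq, ?_⟩
        simp only
        rw [hv p hp', hv q hq, hτ]

end IP

end Pool.Agent.Lib.MP_1a3405_co.Sn
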