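import Mathlib
import Pool.Agent.Lib.MP_1a3405_co.Sn.IPath

/-!
Points of `ℤ³`, translates and repetition of induced paths.
-/

namespace Pool.Agent.Lib.MP_1a3405_co.Sn

/-- The points of `ℤ³`. -/
@[ext] structure P3 where
  /-- first coordinate -/
  x : ℤ
  /-- second coordinate -/
  u : ℤ
  /-- third coordinate -/
  v : ℤ

/-- adjacency in `ℤ³` -/
def adj3 (p q : P3) : Prop :=
  (p.u = q.u ∧ p.v = q.v ∧ (p.x = q.x + 1 ∨ q.x = p.x + 1)) ∨
  (p.x = q.x ∧ p.v = q.v ∧ (p.u = q.u + 1 ∨ q.u = p.u + 1)) ∨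
  (p.x = q.x ∧ p.u = q.u ∧ (p.v = q.v + 1 ∨ q.v = p.v + 1))

theorem adj3_symm (p q : P3) (h : adj3 p q) : adj3 q p := by
  unfold adj3 at *
  omega

theorem adj3_irrefl (p : P3) : ¬ adj3 p p := by
  unfold adj3
  omega

/-- translation by `w` -/
def sh (w p : P3) : P3 := ⟨p.x + w.x, p.u + w.u, p.v + w.v⟩

theorem sh_injective (w : P3) : Function.Injective (sh w) := by
  intro p q h
  have h1 := congrArg P3.x h
  have h2 := congrArg P3.u h
  have h3 := congrArg P3.v h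
  simp only [sh] at h1 h2 h3
  ext <;> omega

theorem adj3_sh (w p q : P3) : adj3 (sh w p) (sh w q) ↔ adj3 p q := by
  unfold adj3 sh
  simp only
  omega

theorem IP.shift (w : P3) {a b : P3} {L : List P3} (h : IP adj3 a b L) :
    IP adj3 (sh w a) (sh w b) (L.map (sh w)) :=
  h.map (sh w) (sh_injective w) (adj3_sh w)

/-- the translate by `k` times `w` -/
def shk (w : P3) (k : ℤ) (p : P3) : P3 := ⟨p.x + k * w.x, p.u + k * w.u, p.v + k * w.v⟩

/-- `n` copies of a list, each translated by `w` -/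
def rep (w : P3) (L : List P3) : ℕ → List P3
  | 0 => []
  | n + 1 => L ++ (rep w L n).map (sh w)

theorem mem_rep {w : P3} {L : List P3} {n : ℕ} {y : P3} (h : y ∈ rep w L n) :
    ∃ k : ℤ, 0 ≤ k ∧ k < n ∧ ∃ x ∈ L, y = shk w k x := by
  induction n generalizing y with
  | zero => simp [rep] at h
  | succ n ih =>
    rw [rep, List.mem_append] at h
    rcases h with h | h
    · refine ⟨0, le_refl _, by positivity, y, h, ?_⟩
      unfold shk
      ext <;> simp
    · obtain ⟨z, hz, rfl⟩ := List.mem_map.1 h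
      obtain ⟨k, h1, h2, x, hx, rfl⟩ := ih hz
      refine ⟨k + 1, by omega, by push_cast; omega, x, hx, ?_⟩
      unfold shk sh
      ext <;> simp only <;> ring

theorem length_rep (w : P3) (L : List P3) (n : ℕ) : (rep w L n).length = n * L.length := by
  induction n with
  | zero => simp [rep]
  | succ n ih =>
    rw [rep, List.length_append, List.length_map, ih]
    ring

theorem IP.rep {w a b : P3} {L : List P3} (hL : IP adj3 a b L) (hab : adj3 b (sh w a))
    (hx : ∀ k : ℤ, 1 ≤ k → ∀ x ∈ L, ∀ y ∈ L,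
      x ≠ shk w k y ∧ (adj3 x (shk w k y) → x = b ∧ shk w k y = sh w a)) (n : ℕ) :
    IP adj3 a (shk w n b) (rep w L (n + 1)) := by
  induction n with
  | zero =>
    have e : shk w ((0 : ℕ) : ℤ) b = b := by
      unfold shk
      ext <;> simp
    have e2 : Sn.rep w L (0 + 1) = L := by simp [Sn.rep]
    rw [e, e2]
    exact hL
  | succ n ih =>
    have e : shk w ((n + 1 : ℕ) : ℤ) b = sh w (shk w n b) := by
      unfold shk sh
      ext <;> push_cast <;> ring
    rw [e, Sn.rep]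
    refine hL.append (ih.shift w) hab ?_
    intro x hxL y hy
    obtain ⟨z, hz, rfl⟩ := List.mem_map.1 hy
    obtain ⟨k, h1, h2, y', hy', rfl⟩ := mem_rep hz
    have e3 : sh w (shk w k y') = shk w (k + 1) y' := by
      unfold shk sh
      ext <;> simp only <;> ring
    rw [e3]
    exact hx (k + 1) (by omega) x hxL y' hy'

/-- a criterion in coordinates -/
theorem cross_of {b c x y : P3} (h1 : ¬ (x.x = y.x ∧ x.u = y.u ∧ x.v = y.v))
    (h2 : adj3 x y → (x.x = b.x ∧ x.u = b.u ∧ x.v = b.v) ∧ y.x = c.x ∧ y.u = c.u ∧ y.v = c.v) :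
    x ≠ y ∧ (adj3 x y → x = b ∧ y = c) := by
  constructor
  · rintro rfl
    exact h1 ⟨rfl, rfl, rfl⟩
  · intro h
    obtain ⟨⟨h3, h4, h5⟩, h6, h7, h8⟩ := h2 h
    exact ⟨P3.ext h3 h4 h5, P3.ext h6 h7 h8⟩

/-- straight segments -/
theorem seg_ip {w p : P3} (hw : (w.x = 1 ∨ w.x = -1) ∧ w.u = 0 ∧ w.v = 0 ∨
    w.x = 0 ∧ (w.u = 1 ∨ w.u = -1) ∧ w.v = 0 ∨ w.x = 0 ∧ w.u = 0 ∧ (w.v = 1 ∨ w.v = -1)) (n : ℕ) :
    IP adj3 p (shk w n p) (rep w [p] (n + 1)) := by
  refine (IP.single p).rep ?_ ?_ n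
  · unfold adj3 sh
    simp only
    omega
  · intro k hk x hx y hy
    rw [List.mem_singleton] at hx hy
    subst hx; subst hy
    obtain ⟨wx, wu, wv⟩ := w
    simp only at hw
    refine cross_of ?_ ?_
    · unfold shk
      simp only
      rcases hw with ⟨h1 | h1, h2, h3⟩ | ⟨h1, h2 | h2, h3⟩ | ⟨h1, h2, h3 | h3⟩ <;> subst h1 <;>
        subst h2 <;> subst h3 <;> omega
    · intro h
      refine ⟨⟨rfl, rfl, rfl⟩, ?_⟩
      unfold shk adj3 at h
      unfold shk sh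
      simp only at h ⊢
      rcases hw with ⟨h1 | h1, h2, h3⟩ | ⟨h1, h2 | h2, h3⟩ | ⟨h1, h2, h3 | h3⟩ <;> subst h1 <;>
        subst h2 <;> subst h3 <;> omega

theorem mem_seg {w p y : P3} {n : ℕ} (h : y ∈ rep w [p] n) :
    ∃ k : ℤ, 0 ≤ k ∧ k < n ∧ y.x = p.x + k * w.x ∧ y.u = p.u + k * w.u ∧ y.v = p.v + k * w.v := by
  obtain ⟨k, h1, h2, x, hx, rfl⟩ := mem_rep h
  rw [List.mem_singleton] at hx
  subst hx
  exact ⟨k, h1, h2, rfl, rfl, rfl⟩

end Pool.Agent.Lib.MP_1a3405_co.Sn
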