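import Mathlib
import Pool.Agent.Lib.MP_1a3405_co.Sn.P3

/-!
The basic tile: two strands of straight lines in direction `x`, joined by connectors.
-/

namespace Pool.Agent.Lib.MP_1a3405_co.Sn

/-- down, bottom connector, up, top connector -/
def tE (l : ℕ) : List P3 :=
  rep ⟨-1, 0, 0⟩ [⟨0, 1, 1⟩] (l + 1) ++
    (⟨-l, 1, 2⟩ :: (rep ⟨1, 0, 0⟩ [⟨-l, 2, 2⟩] (l + 1) ++ [⟨0, 3, 2⟩]))

def pE (l x u v : ℤ) : Prop :=
  (u = 1 ∧ v = 1 ∧ -l ≤ x ∧ x ≤ 0) ∨ (x = -l ∧ u = 1 ∧ v = 2) ∨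
    (u = 2 ∧ v = 2 ∧ -l ≤ x ∧ x ≤ 0) ∨ (x = 0 ∧ u = 3 ∧ v = 2)

theorem mem_tE {l : ℕ} {p : P3} (h : p ∈ tE l) : pE l p.x p.u p.v := by
  unfold tE at h
  simp only [List.mem_append, List.mem_cons, List.not_mem_nil, or_false] at h
  unfold pE
  rcases h with h | h | h | h
  · obtain ⟨k, h1, h2, h3, h4, h5⟩ := mem_seg h
    simp only at h3 h4 h5
    push_cast at h2
    omega
  · subst h
    simp
  · obtain ⟨k, h1, h2, h3, h4, h5⟩ := mem_seg h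
    simp only at h3 h4 h5
    push_cast at h2
    omega
  · subst h
    simp

theorem ip_tE (l : ℕ) (hl : 2 ≤ l) : IP adj3 ⟨0, 1, 1⟩ ⟨0, 3, 2⟩ (tE l) := by
  have h1 := seg_ip (w := ⟨-1, 0, 0⟩) (p := ⟨0, 1, 1⟩) (by simp) l
  have h2 := seg_ip (w := ⟨1, 0, 0⟩) (p := ⟨-l, 2, 2⟩) (by simp) l
  have e1 : shk ⟨-1, 0, 0⟩ l ⟨0, 1, 1⟩ = ⟨-l, 1, 1⟩ := by
    unfold shk
    ext <;> simp
  have e2 : shk ⟨1, 0, 0⟩ l ⟨-l, 2, 2⟩ = ⟨0, 2, 2⟩ := by
    unfold shk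
    ext <;> simp
  rw [e1] at h1
  rw [e2] at h2
  have h3 : IP adj3 ⟨-l, 2, 2⟩ ⟨0, 3, 2⟩ (rep ⟨1, 0, 0⟩ [⟨-l, 2, 2⟩] (l + 1) ++ [⟨0, 3, 2⟩]) := by
    refine h2.append (IP.single _) (by unfold adj3; simp) ?_
    intro x hx y hy
    rw [List.mem_singleton] at hy
    subst hy
    obtain ⟨k, g1, g2, g3, g4, g5⟩ := mem_seg hx
    simp only at g3 g4 g5
    push_cast at g2
    refine cross_of ?_ ?_
    · simp only
      omega
    · intro h
      unfold adj3 at h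
      simp only at h
      refine ⟨?_, rfl, rfl, rfl⟩
      simp only
      omega
  have h4 : IP adj3 ⟨-l, 1, 2⟩ ⟨0, 3, 2⟩
      (⟨-l, 1, 2⟩ :: (rep ⟨1, 0, 0⟩ [⟨-l, 2, 2⟩] (l + 1) ++ [⟨0, 3, 2⟩])) := by
    refine IP.cons (by unfold adj3; simp) h3 ?_
    intro y hy
    rw [List.mem_append, List.mem_singleton] at hy
    have hq : (y.u = 2 ∧ y.v = 2 ∧ -(l : ℤ) ≤ y.x ∧ y.x ≤ 0) ∨ (y.x = 0 ∧ y.u = 3 ∧ y.v = 2) := by
      rcases hy with hy | hy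
      · obtain ⟨k, g1, g2, g3, g4, g5⟩ := mem_seg hy
        simp only at g3 g4 g5
        push_cast at g2
        omega
      · subst hy
        simp
    have hc : (⟨-l, 1, 2⟩ : P3) ≠ y ∧ (adj3 ⟨-l, 1, 2⟩ y → (⟨-l, 1, 2⟩ : P3) = ⟨-l, 1, 2⟩ ∧
        y = ⟨-l, 2, 2⟩) := by
      refine cross_of ?_ ?_
      · simp only
        omega
      · intro h
        unfold adj3 at h
        simp only at h
        refine ⟨⟨rfl, rfl, rfl⟩, ?_⟩
        simp only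
        omega
    exact ⟨hc.1.symm, fun h => (hc.2 h).2⟩
  refine h1.append h4 (by unfold adj3; simp) ?_
  intro x hx y hy
  have hy' : (y.x = -(l : ℤ) ∧ y.u = 1 ∧ y.v = 2) ∨ (y.u = 2 ∧ y.v = 2 ∧ -(l : ℤ) ≤ y.x ∧ y.x ≤ 0) ∨
      (y.x = 0 ∧ y.u = 3 ∧ y.v = 2) := by
    rw [List.mem_cons, List.mem_append, List.mem_singleton] at hy
    rcases hy with hy | hy | hy
    · subst hy; simp
    · obtain ⟨k, g1, g2, g3, g4, g5⟩ := mem_seg hy
      simp only at g3 g4 g5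
      push_cast at g2
      omega
    · subst hy; simp
  obtain ⟨k, g1, g2, g3, g4, g5⟩ := mem_seg hx
  simp only at g3 g4 g5
  push_cast at g2
  refine cross_of ?_ ?_
  · omega
  · intro h
    unfold adj3 at h
    simp only
    omega

theorem length_tE (l : ℕ) : (tE l).length = 2 * l + 4 := by
  unfold tE
  simp [length_rep]
  ring

/-- the upward strand -/
def tS (l H : ℕ) : List P3 := rep ⟨0, 2, 2⟩ (tE l) H

def pS (l H x u v : ℤ) : Prop :=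
  (u = v ∧ 1 ≤ v ∧ v ≤ 2 * H ∧ -l ≤ x ∧ x ≤ 0) ∨
    (x = -l ∧ u + 1 = v ∧ 2 ≤ v ∧ v ≤ 2 * H ∧ v % 2 = 0) ∨
    (x = 0 ∧ u = v + 1 ∧ 2 ≤ v ∧ v ≤ 2 * H ∧ v % 2 = 0)

theorem mem_tS {l H : ℕ} {p : P3} (h : p ∈ tS l H) : pS l H p.x p.u p.v := by
  obtain ⟨k, h1, h2, y, hy, rfl⟩ := mem_rep h
  have h3 := mem_tE hy
  unfold pE at h3
  unfold pS shk
  simp only
  rcases h3 with h3 | h3 | h3 | h3
  · left; refine ⟨?_, ?_, ?_, ?_, ?_⟩ <;> omega
  · right; left; refine ⟨?_, ?_, ?_, ?_, ?_⟩ <;> omega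
  · left; refine ⟨?_, ?_, ?_, ?_, ?_⟩ <;> omega
  · right; right; refine ⟨?_, ?_, ?_, ?_, ?_⟩ <;> omega

theorem ip_tS (l H : ℕ) (hl : 2 ≤ l) (hH : 1 ≤ H) :
    IP adj3 ⟨0, 1, 1⟩ ⟨0, 2 * H + 1, 2 * H⟩ (tS l H) := by
  obtain ⟨m, rfl⟩ : ∃ m, H = m + 1 := ⟨H - 1, by omega⟩
  have h := (ip_tE l hl).rep (w := ⟨0, 2, 2⟩) (by unfold adj3 sh; simp) (by
    intro k hk x hx y hy
    have h1 := mem_tE hx
    have h2 := mem_tE hy
    unfold pE at h1 h2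
    refine cross_of ?_ ?_
    · unfold shk
      simp only
      rcases h1 with h1 | h1 | h1 | h1 <;> rcases h2 with h2 | h2 | h2 | h2 <;> omega
    · intro h
      unfold adj3 shk at h
      unfold shk sh
      simp only at h ⊢
      rcases h1 with h1 | h1 | h1 | h1 <;> rcases h2 with h2 | h2 | h2 | h2 <;>
        rcases h with ⟨g1, g2, g3 | g3⟩ | ⟨g1, g2, g3 | g3⟩ | ⟨g1, g2, g3 | g3⟩ <;>
        first
        | (exfalso; omega)
        | (refine ⟨⟨?_, ?_, ?_⟩, ?_, ?_, ?_⟩ <;> omega)) m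
  have e : shk ⟨0, 2, 2⟩ m ⟨0, 3, 2⟩ = ⟨0, 2 * ((m + 1 : ℕ) : ℤ) + 1, 2 * ((m + 1 : ℕ) : ℤ)⟩ := by
    unfold shk
    ext <;> push_cast <;> ring
  rw [e] at h
  exact h

/-- the tile of the downward strand, starting at height `w` -/
def tF (l : ℕ) (w : ℤ) : List P3 :=
  rep ⟨-1, 0, 0⟩ [⟨-2, w + 2, w⟩] (l + 1) ++
    (⟨-2 - l, w + 1, w⟩ :: (rep ⟨1, 0, 0⟩ [⟨-2 - l, w + 1, w - 1⟩] (l + 1) ++
      [⟨-2, w + 1, w - 2⟩]))

def pF (l w x u v : ℤ) : Prop :=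
  (u = w + 2 ∧ v = w ∧ -2 - l ≤ x ∧ x ≤ -2) ∨ (x = -2 - l ∧ u = w + 1 ∧ v = w) ∨
    (u = w + 1 ∧ v = w - 1 ∧ -2 - l ≤ x ∧ x ≤ -2) ∨ (x = -2 ∧ u = w + 1 ∧ v = w - 2)

theorem mem_tF {l : ℕ} {w : ℤ} {p : P3} (h : p ∈ tF l w) : pF l w p.x p.u p.v := by
  unfold tF at h
  simp only [List.mem_append, List.mem_cons, List.not_mem_nil, or_false] at h
  unfold pF
  rcases h with h | h | h | h
  · obtain ⟨k, h1, h2, h3, h4, h5⟩ := mem_seg h
    simp only at h3 h4 h5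
    push_cast at h2
    left; refine ⟨?_, ?_, ?_, ?_⟩ <;> omega
  · subst h
    simp
  · obtain ⟨k, h1, h2, h3, h4, h5⟩ := mem_seg h
    simp only at h3 h4 h5
    push_cast at h2
    right; right; left; refine ⟨?_, ?_, ?_, ?_⟩ <;> omega
  · subst h
    simp

theorem ip_tF (l : ℕ) (w : ℤ) (hl : 2 ≤ l) :
    IP adj3 ⟨-2, w + 2, w⟩ ⟨-2, w + 1, w - 2⟩ (tF l w) := by
  have h1 := seg_ip (w := ⟨-1, 0, 0⟩) (p := ⟨-2, w + 2, w⟩) (by simp) l
  have h2 := seg_ip (w := ⟨1, 0, 0⟩) (p := ⟨-2 - l, w + 1, w - 1⟩) (by simp) l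
  have e1 : shk ⟨-1, 0, 0⟩ l ⟨-2, w + 2, w⟩ = ⟨-2 - l, w + 2, w⟩ := by
    unfold shk
    ext <;> simp <;> ring
  have e2 : shk ⟨1, 0, 0⟩ l ⟨-2 - l, w + 1, w - 1⟩ = ⟨-2, w + 1, w - 1⟩ := by
    unfold shk
    ext <;> simp
  rw [e1] at h1
  rw [e2] at h2
  have h3 : IP adj3 ⟨-2 - l, w + 1, w - 1⟩ ⟨-2, w + 1, w - 2⟩
      (rep ⟨1, 0, 0⟩ [⟨-2 - l, w + 1, w - 1⟩] (l + 1) ++ [⟨-2, w + 1, w - 2⟩]) := by
    refine h2.append (IP.single _) (Or.inr (Or.inr ⟨rfl, rfl, Or.inl (by simp only; ring)⟩)) ?_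
    intro x hx y hy
    rw [List.mem_singleton] at hy
    subst hy
    obtain ⟨k, g1, g2, g3, g4, g5⟩ := mem_seg hx
    simp only at g3 g4 g5
    push_cast at g2
    refine cross_of ?_ ?_
    · simp only
      omega
    · intro h
      unfold adj3 at h
      simp only at h
      refine ⟨?_, rfl, rfl, rfl⟩
      simp only
      omega
  have h4 : IP adj3 ⟨-2 - l, w + 1, w⟩ ⟨-2, w + 1, w - 2⟩
      (⟨-2 - l, w + 1, w⟩ :: (rep ⟨1, 0, 0⟩ [⟨-2 - l, w + 1, w - 1⟩] (l + 1) ++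
        [⟨-2, w + 1, w - 2⟩])) := by
    have ha : adj3 ⟨-2 - l, w + 1, w⟩ ⟨-2 - l, w + 1, w - 1⟩ :=
      Or.inr (Or.inr ⟨rfl, rfl, Or.inl (by simp only; ring)⟩)
    refine IP.cons ha h3 ?_
    intro y hy
    rw [List.mem_append, List.mem_singleton] at hy
    have hq : (y.u = w + 1 ∧ y.v = w - 1 ∧ -2 - (l : ℤ) ≤ y.x ∧ y.x ≤ -2) ∨
        (y.x = -2 ∧ y.u = w + 1 ∧ y.v = w - 2) := by
      rcases hy with hy | hy
      · obtain ⟨k, g1, g2, g3, g4, g5⟩ := mem_seg hy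
        simp only at g3 g4 g5
        push_cast at g2
        omega
      · subst hy
        simp
    have hc : (⟨-2 - l, w + 1, w⟩ : P3) ≠ y ∧ (adj3 ⟨-2 - l, w + 1, w⟩ y →
        (⟨-2 - l, w + 1, w⟩ : P3) = ⟨-2 - l, w + 1, w⟩ ∧ y = ⟨-2 - l, w + 1, w - 1⟩) := by
      refine cross_of ?_ ?_
      · simp only
        omega
      · intro h
        unfold adj3 at h
        simp only at h
        refine ⟨⟨rfl, rfl, rfl⟩, ?_⟩
        simp only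
        omega
    exact ⟨hc.1.symm, fun h => (hc.2 h).2⟩
  refine h1.append h4 (Or.inr (Or.inl ⟨rfl, rfl, Or.inl (by simp only; ring)⟩)) ?_
  intro x hx y hy
  have hy' : (y.x = -2 - (l : ℤ) ∧ y.u = w + 1 ∧ y.v = w) ∨
      (y.u = w + 1 ∧ y.v = w - 1 ∧ -2 - (l : ℤ) ≤ y.x ∧ y.x ≤ -2) ∨
      (y.x = -2 ∧ y.u = w + 1 ∧ y.v = w - 2) := by
    rw [List.mem_cons, List.mem_append, List.mem_singleton] at hy
    rcases hy with hy | hy | hy
    · subst hy; simp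
    · obtain ⟨k, g1, g2, g3, g4, g5⟩ := mem_seg hy
      simp only at g3 g4 g5
      push_cast at g2
      omega
    · subst hy; simp
  obtain ⟨k, g1, g2, g3, g4, g5⟩ := mem_seg hx
  simp only at g3 g4 g5
  push_cast at g2
  refine cross_of ?_ ?_
  · omega
  · intro h
    unfold adj3 at h
    simp only
    omega

theorem length_tF (l : ℕ) (w : ℤ) : (tF l w).length = 2 * l + 4 := by
  unfold tF
  simp [length_rep]
  ring

/-- the downward strand -/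
def tD (l H : ℕ) : List P3 := rep ⟨0, -2, -2⟩ (tF l (2 * H - 1)) (H - 1)

def pD (l H x u v : ℤ) : Prop :=
  (u = v + 2 ∧ 2 ≤ v ∧ v ≤ 2 * H - 1 ∧ -2 - l ≤ x ∧ x ≤ -2) ∨
    (x = -2 - l ∧ u = v + 1 ∧ 3 ≤ v ∧ v ≤ 2 * H - 1 ∧ v % 2 = 1) ∨
    (x = -2 ∧ u = v + 3 ∧ 1 ≤ v ∧ v ≤ 2 * H - 3 ∧ v % 2 = 1)

theorem mem_tD {l H : ℕ} (hH : 1 ≤ H) {p : P3} (h : p ∈ tD l H) : pD l H p.x p.u p.v := by
  obtain ⟨k, h1, h2, y, hy, rfl⟩ := mem_rep h
  have h3 := mem_tF hy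
  unfold pF at h3
  unfold pD shk
  simp only
  have h4 : ((H - 1 : ℕ) : ℤ) = H - 1 := by omega
  rw [h4] at h2
  rcases h3 with h3 | h3 | h3 | h3
  · left; refine ⟨?_, ?_, ?_, ?_, ?_⟩ <;> omega
  · right; left; refine ⟨?_, ?_, ?_, ?_, ?_⟩ <;> omega
  · left; refine ⟨?_, ?_, ?_, ?_, ?_⟩ <;> omega
  · right; right; refine ⟨?_, ?_, ?_, ?_, ?_⟩ <;> omega

theorem ip_tD (l H : ℕ) (hl : 2 ≤ l) (hH : 2 ≤ H) :
    IP adj3 ⟨-2, 2 * H + 1, 2 * H - 1⟩ ⟨-2, 4, 1⟩ (tD l H) := by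
  obtain ⟨m, rfl⟩ : ∃ m, H = m + 2 := ⟨H - 2, by omega⟩
  have h := (ip_tF l (2 * ((m + 2 : ℕ) : ℤ) - 1) hl).rep (w := ⟨0, -2, -2⟩)
    (Or.inr (Or.inl ⟨by simp [sh], by simp [sh]; ring, Or.inl (by simp [sh])⟩)) (by
    intro k hk x hx y hy
    have h1 := mem_tF hx
    have h2 := mem_tF hy
    unfold pF at h1 h2
    refine cross_of ?_ ?_
    · unfold shk
      simp only
      rcases h1 with h1 | h1 | h1 | h1 <;> rcases h2 with h2 | h2 | h2 | h2 <;> omega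
    · intro h
      unfold adj3 shk at h
      unfold shk sh
      simp only at h ⊢
      rcases h1 with h1 | h1 | h1 | h1 <;> rcases h2 with h2 | h2 | h2 | h2 <;>
        rcases h with ⟨g1, g2, g3 | g3⟩ | ⟨g1, g2, g3 | g3⟩ | ⟨g1, g2, g3 | g3⟩ <;>
        first
        | (exfalso; omega)
        | (refine ⟨⟨?_, ?_, ?_⟩, ?_, ?_, ?_⟩ <;> omega)) m
  have e : shk ⟨0, -2, -2⟩ m ⟨-2, 2 * ((m + 2 : ℕ) : ℤ) - 1 + 1, 2 * ((m + 2 : ℕ) : ℤ) - 1 - 2⟩ =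
      ⟨-2, 4, 1⟩ := by
    unfold shk
    ext <;> push_cast <;> ring
  rw [e] at h
  have e2 : (2 * ((m + 2 : ℕ) : ℤ) - 1 + 2) = 2 * ((m + 2 : ℕ) : ℤ) + 1 := by ring
  rw [e2] at h
  exact h

/-- the tile of the module -/
def tT (l H : ℕ) : List P3 :=
  ⟨2, 1, 1⟩ :: ⟨1, 1, 1⟩ :: (tS l H ++
    (⟨0, 2 * H + 1, 2 * H - 1⟩ :: ⟨-1, 2 * H + 1, 2 * H - 1⟩ :: tD l H))

def pT (l H x u v : ℤ) : Prop :=
  pS l H x u v ∨ pD l H x u v ∨ (u = 1 ∧ v = 1 ∧ 1 ≤ x ∧ x ≤ 2) ∨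
    (u = 2 * H + 1 ∧ v = 2 * H - 1 ∧ -1 ≤ x ∧ x ≤ 0)

theorem mem_tT {l H : ℕ} (hH : 1 ≤ H) {p : P3} (h : p ∈ tT l H) : pT l H p.x p.u p.v := by
  unfold tT at h
  simp only [List.mem_append, List.mem_cons] at h
  unfold pT
  rcases h with h | h | h | h | h | h
  · subst h; simp
  · subst h; simp
  · exact Or.inl (mem_tS h)
  · subst h; simp
  · subst h; simp
  · exact Or.inr (Or.inl (mem_tD hH h))

/-- adding a point in front -/
theorem IP.cons_of {a b e : P3} {L : List P3} (h : IP adj3 b e L) (hab : adj3 a b)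
    (h1 : ∀ y ∈ L, ¬ (a.x = y.x ∧ a.u = y.u ∧ a.v = y.v))
    (h2 : ∀ y ∈ L, adj3 a y → y.x = b.x ∧ y.u = b.u ∧ y.v = b.v) : IP adj3 a e (a :: L) := by
  refine IP.cons hab h fun y hy => ⟨?_, fun g => ?_⟩
  · rintro rfl
    exact h1 y hy ⟨rfl, rfl, rfl⟩
  · obtain ⟨g1, g2, g3⟩ := h2 y hy g
    exact P3.ext g1 g2 g3

theorem ip_tT (l H : ℕ) (hl : 4 ≤ l) (hH : 2 ≤ H) :
    IP adj3 ⟨2, 1, 1⟩ ⟨-2, 4, 1⟩ (tT l H) := by
  have h1 := ip_tS l H (by omega) (by omega)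
  have h2 := ip_tD l H (by omega) hH
  have h3 : IP adj3 ⟨-1, 2 * H + 1, 2 * H - 1⟩ ⟨-2, 4, 1⟩
      (⟨-1, 2 * H + 1, 2 * H - 1⟩ :: tD l H) := by
    refine h2.cons_of (by unfold adj3; simp) ?_ ?_
    · intro y hy
      have hy := mem_tD (by omega) hy
      unfold pD at hy
      simp only
      rcases hy with hy | hy | hy <;> omega
    · intro y hy h
      have hy := mem_tD (by omega) hy
      unfold pD at hy
      unfold adj3 at h
      simp only at h ⊢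
      rcases hy with hy | hy | hy <;>
        rcases h with ⟨g1, g2, g3 | g3⟩ | ⟨g1, g2, g3 | g3⟩ | ⟨g1, g2, g3 | g3⟩ <;>
        first
        | (exfalso; omega)
        | (refine ⟨?_, ?_, ?_⟩ <;> omega)
  have h4 : IP adj3 ⟨0, 2 * H + 1, 2 * H - 1⟩ ⟨-2, 4, 1⟩
      (⟨0, 2 * H + 1, 2 * H - 1⟩ :: ⟨-1, 2 * H + 1, 2 * H - 1⟩ :: tD l H) := by
    refine h3.cons_of (by unfold adj3; simp) ?_ ?_
    · intro y hy
      rcases List.mem_cons.1 hy with rfl | hy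
      · simp
      · have hy := mem_tD (by omega) hy
        unfold pD at hy
        simp only
        rcases hy with hy | hy | hy <;> omega
    · intro y hy h
      rcases List.mem_cons.1 hy with rfl | hy
      · exact ⟨rfl, rfl, rfl⟩
      · have hy := mem_tD (by omega) hy
        unfold pD at hy
        unfold adj3 at h
        simp only at h ⊢
        rcases hy with hy | hy | hy <;>
          rcases h with ⟨g1, g2, g3 | g3⟩ | ⟨g1, g2, g3 | g3⟩ | ⟨g1, g2, g3 | g3⟩ <;>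
          exfalso <;> omega
  have h5 : IP adj3 ⟨0, 1, 1⟩ ⟨-2, 4, 1⟩ (tS l H ++
      (⟨0, 2 * H + 1, 2 * H - 1⟩ :: ⟨-1, 2 * H + 1, 2 * H - 1⟩ :: tD l H)) := by
    refine h1.append h4 (by unfold adj3; simp) ?_
    intro x hx y hy
    have hx := mem_tS hx
    unfold pS at hx
    have hy : ((y.x = 0 ∨ y.x = -1) ∧ y.u = 2 * H + 1 ∧ y.v = 2 * H - 1) ∨
        pD l H y.x y.u y.v := by
      rcases List.mem_cons.1 hy with rfl | hy
      · left; simp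
      · rcases List.mem_cons.1 hy with rfl | hy
        · left; simp
        · right; exact mem_tD (by omega) hy
    unfold pD at hy
    refine cross_of ?_ ?_
    · rcases hx with hx | hx | hx <;> rcases hy with hy | hy | hy | hy <;> omega
    · intro h
      unfold adj3 at h
      simp only
      rcases hx with hx | hx | hx <;> rcases hy with ⟨hy | hy, hy'⟩ | hy | hy | hy <;>
        rcases h with ⟨g1, g2, g3 | g3⟩ | ⟨g1, g2, g3 | g3⟩ | ⟨g1, g2, g3 | g3⟩ <;>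
        first
        | (exfalso; omega)
        | (refine ⟨⟨?_, ?_, ?_⟩, ?_, ?_, ?_⟩ <;> omega)
  have hS : ∀ y ∈ tS l H ++
      (⟨0, 2 * H + 1, 2 * H - 1⟩ :: ⟨-1, 2 * H + 1, 2 * H - 1⟩ :: tD l H),
      y.x ≤ 0 ∧ (y.v = 1 → y.u = 1 ∨ 4 ≤ y.u) := by
    intro y hy
    rw [List.mem_append] at hy
    rcases hy with hy | hy
    · have hy := mem_tS hy
      unfold pS at hy
      rcases hy with hy | hy | hy <;> omega
    · rcases List.mem_cons.1 hy with rfl | hy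
      · simp only
        omega
      · rcases List.mem_cons.1 hy with rfl | hy
        · simp only
          omega
        · have hy := mem_tD (by omega) hy
          unfold pD at hy
          rcases hy with hy | hy | hy <;> omega
  have h6 : IP adj3 ⟨1, 1, 1⟩ ⟨-2, 4, 1⟩ (⟨1, 1, 1⟩ :: (tS l H ++
      (⟨0, 2 * H + 1, 2 * H - 1⟩ :: ⟨-1, 2 * H + 1, 2 * H - 1⟩ :: tD l H))) := by
    refine h5.cons_of (by unfold adj3; simp) ?_ ?_
    · intro y hy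
      have hy := hS y hy
      simp only
      omega
    · intro y hy h
      have hy := hS y hy
      unfold adj3 at h
      simp only at h ⊢
      omega
  refine h6.cons_of (by unfold adj3; simp) ?_ ?_
  · intro y hy
    have hy : y.x ≤ 1 := by
      rcases List.mem_cons.1 hy with rfl | hy
      · simp
      · have := (hS y hy).1
        omega
    simp only
    omega
  · intro y hy h
    have hy : y.x ≤ 1 := by
      rcases List.mem_cons.1 hy with rfl | hy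
      · simp
      · have := (hS y hy).1
        omega
    unfold adj3 at h
    simp only at h ⊢
    omega

theorem length_tT (l H : ℕ) : (tT l H).length = H * (2 * l + 4) + (H - 1) * (2 * l + 4) + 4 := by
  unfold tT tS tD
  simp [length_rep, length_tE, length_tF]
  ring

end Pool.Agent.Lib.MP_1a3405_co.Sn
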