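import Mathlib
import Pool.Agent.Lib.MP_1a3405_co.Sn.Tile

/-!
Modules (repeated tiles), bands (repeated modules and a return wire) and the full structure.
-/

namespace Pool.Agent.Lib.MP_1a3405_co.Sn

theorem pT_facts {l H x u v : ℤ} (hl : 0 ≤ l) (hH : 2 ≤ H) (h : pT l H x u v) :
    (-1 ≤ u - v ∧ u - v ≤ 3 ∧ 1 ≤ v ∧ v ≤ 2 * H ∧ 1 ≤ u) ∧
    (u - v = 3 → x = -2 ∧ v % 2 = 1 ∧ v ≤ 2 * H - 3) ∧
    (u - v = 2 → -2 - l ≤ x) ∧ (u - v = -1 → x = -l) ∧ (u - v = 0 → -l ≤ x) ∧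
    x ≤ 2 ∧ (1 ≤ x → u = 1 ∧ v = 1) ∧ (v = 1 → u = 1 ∨ u = 4) ∧ -2 - l ≤ x := by
  unfold pT pS pD at h
  rcases h with (h | h | h) | (h | h | h) | h | h <;>
    refine ⟨⟨?_, ?_, ?_, ?_, ?_⟩, ?_, ?_, ?_, ?_, ?_, ?_, ?_, ?_⟩ <;> omega

/-- the tiles of a module -/
def tR (l H q : ℕ) : List P3 := rep ⟨-4, 4, 0⟩ (tT l H) q

def pR (l H q x u v : ℤ) : Prop := ∃ k, 0 ≤ k ∧ k < q ∧ pT l H (x + 4 * k) (u - 4 * k) v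

theorem mem_tR {l H q : ℕ} (hH : 1 ≤ H) {p : P3} (h : p ∈ tR l H q) : pR l H q p.x p.u p.v := by
  obtain ⟨k, h1, h2, y, hy, rfl⟩ := mem_rep h
  refine ⟨k, h1, h2, ?_⟩
  have h3 := mem_tT hH hy
  have e1 : (shk ⟨-4, 4, 0⟩ k y).x + 4 * k = y.x := by simp only [shk]; ring
  have e2 : (shk ⟨-4, 4, 0⟩ k y).u - 4 * k = y.u := by simp only [shk]; ring
  have e3 : (shk ⟨-4, 4, 0⟩ k y).v = y.v := by simp only [shk]; ring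
  rw [e1, e2, e3]
  exact h3

theorem ip_tR (l H q : ℕ) (hl : 4 ≤ l) (hH : 2 ≤ H) (hq : 1 ≤ q) :
    IP adj3 ⟨2, 1, 1⟩ ⟨-4 * q + 2, 4 * q, 1⟩ (tR l H q) := by
  obtain ⟨m, rfl⟩ : ∃ m, q = m + 1 := ⟨q - 1, by omega⟩
  have h := (ip_tT l H hl hH).rep (w := ⟨-4, 4, 0⟩) (by unfold adj3 sh; simp) (by
    intro k hk x hx y hy
    obtain ⟨a1, a2, a3, a4, a5, a6, a7, a8, -⟩ := pT_facts (by omega) (by omega) (mem_tT (by omega) hx)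
    obtain ⟨b1, b2, b3, b4, b5, b6, b7, b8, -⟩ := pT_facts (by omega) (by omega) (mem_tT (by omega) hy)
    refine cross_of ?_ ?_
    · unfold shk
      simp only
      intro hc
      omega
    · intro h
      unfold adj3 shk at h
      unfold shk sh
      simp only at h ⊢
      rcases h with ⟨g1, g2, g3 | g3⟩ | ⟨g1, g2, g3 | g3⟩ | ⟨g1, g2, g3 | g3⟩ <;>
        first
        | (exfalso; omega)
        | (refine ⟨⟨?_, ?_, ?_⟩, ?_, ?_, ?_⟩ <;> omega)) m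
  have e : shk ⟨-4, 4, 0⟩ m ⟨-2, 4, 1⟩ =
      ⟨-4 * ((m + 1 : ℕ) : ℤ) + 2, 4 * ((m + 1 : ℕ) : ℤ), 1⟩ := by
    unfold shk
    ext <;> push_cast <;> ring
  rw [e] at h
  exact h

/-- a module -/
def tM (l H q : ℕ) : List P3 :=
  tR l H q ++ (rep ⟨1, 0, 0⟩ [⟨-4 * q + 2, 4 * q + 1, 1⟩] (4 * q + 1) ++
    rep ⟨0, 1, 0⟩ [⟨2, 4 * q + 2, 1⟩] 3)

def pM (l H q x u v : ℤ) : Prop :=
  pR l H q x u v ∨ (u = 4 * q + 1 ∧ v = 1 ∧ -4 * q + 2 ≤ x ∧ x ≤ 2) ∨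
    (x = 2 ∧ v = 1 ∧ 4 * q + 2 ≤ u ∧ u ≤ 4 * q + 4)

theorem mem_tM {l H q : ℕ} (hH : 1 ≤ H) {p : P3} (h : p ∈ tM l H q) : pM l H q p.x p.u p.v := by
  unfold tM at h
  simp only [List.mem_append] at h
  unfold pM
  rcases h with h | h | h
  · exact Or.inl (mem_tR hH h)
  · obtain ⟨k, h1, h2, h3, h4, h5⟩ := mem_seg h
    simp only at h3 h4 h5
    push_cast at h2
    right; left
    refine ⟨?_, ?_, ?_, ?_⟩ <;> omega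
  · obtain ⟨k, h1, h2, h3, h4, h5⟩ := mem_seg h
    simp only at h3 h4 h5
    push_cast at h2
    right; right
    refine ⟨?_, ?_, ?_, ?_⟩ <;> omega

theorem pR_facts {l H q x u v : ℤ} (hl : 0 ≤ l) (hH : 2 ≤ H) (h : pR l H q x u v) :
    (-1 ≤ u - v ∧ u - v ≤ 4 * q - 1 ∧ 1 ≤ v ∧ v ≤ 2 * H ∧ 1 ≤ u) ∧
    (u - v = 4 * q - 1 → x = -4 * q + 2 ∧ v % 2 = 1) ∧
    (u - v = -1 → x = -l) ∧ x ≤ 2 ∧ (1 ≤ x → u = 1 ∧ v = 1) ∧ (v = 1 → u ≤ 4 * q) ∧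
    2 - l - 4 * q ≤ x := by
  obtain ⟨k, h1, h2, h3⟩ := h
  obtain ⟨a1, a2, a3, a4, a5, a6, a7, a8, a9⟩ := pT_facts hl hH h3
  refine ⟨⟨?_, ?_, ?_, ?_, ?_⟩, ?_, ?_, ?_, ?_, ?_, ?_⟩ <;> omega

theorem ip_tM (l H q : ℕ) (hl : 4 ≤ l) (hH : 2 ≤ H) (hq : 1 ≤ q) :
    IP adj3 ⟨2, 1, 1⟩ ⟨2, 4 * q + 4, 1⟩ (tM l H q) := by
  have h1 := ip_tR l H q hl hH hq
  have h2 := seg_ip (w := ⟨1, 0, 0⟩) (p := ⟨-4 * q + 2, 4 * q + 1, 1⟩) (by simp) (4 * q)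
  have h3 := seg_ip (w := ⟨0, 1, 0⟩) (p := ⟨2, 4 * q + 2, 1⟩) (by simp) 2
  have e2 : shk ⟨1, 0, 0⟩ ((4 * q : ℕ) : ℤ) ⟨-4 * q + 2, 4 * q + 1, 1⟩ = ⟨2, 4 * q + 1, 1⟩ := by
    unfold shk
    ext <;> push_cast <;> ring
  have e3 : shk ⟨0, 1, 0⟩ ((2 : ℕ) : ℤ) ⟨2, 4 * q + 2, 1⟩ = ⟨2, 4 * q + 4, 1⟩ := by
    unfold shk
    ext <;> push_cast <;> ring
  rw [e2] at h2
  rw [e3] at h3
  have h4 : IP adj3 ⟨-4 * q + 2, 4 * q + 1, 1⟩ ⟨2, 4 * q + 4, 1⟩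
      (rep ⟨1, 0, 0⟩ [⟨-4 * q + 2, 4 * q + 1, 1⟩] (4 * q + 1) ++
        rep ⟨0, 1, 0⟩ [⟨2, 4 * q + 2, 1⟩] 3) := by
    refine h2.append h3 (Or.inr (Or.inl ⟨rfl, rfl, Or.inr (by simp only; ring)⟩)) ?_
    intro x hx y hy
    obtain ⟨k, g1, g2, g3, g4, g5⟩ := mem_seg hx
    obtain ⟨k', f1, f2, f3, f4, f5⟩ := mem_seg hy
    simp only at g3 g4 g5 f3 f4 f5
    push_cast at g2 f2
    refine cross_of ?_ ?_
    · omega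
    · intro h
      unfold adj3 at h
      simp only
      rcases h with ⟨a1, a2, a3 | a3⟩ | ⟨a1, a2, a3 | a3⟩ | ⟨a1, a2, a3 | a3⟩ <;>
        first
        | (exfalso; omega)
        | (refine ⟨⟨?_, ?_, ?_⟩, ?_, ?_, ?_⟩ <;> omega)
  refine h1.append h4 (Or.inr (Or.inl ⟨rfl, rfl, Or.inr rfl⟩)) ?_
  intro x hx y hy
  obtain ⟨a1, a2, a3, a4, a5, a6, -⟩ := pR_facts (by omega) (by omega) (mem_tR (by omega) hx)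
  have hy : (y.u = 4 * q + 1 ∧ y.v = 1 ∧ -4 * (q : ℤ) + 2 ≤ y.x) ∨ (y.v = 1 ∧ 4 * q + 2 ≤ y.u) := by
    rw [List.mem_append] at hy
    rcases hy with hy | hy
    · obtain ⟨k, f1, f2, f3, f4, f5⟩ := mem_seg hy
      simp only at f3 f4 f5
      push_cast at f2
      left
      refine ⟨?_, ?_, ?_⟩ <;> omega
    · obtain ⟨k, f1, f2, f3, f4, f5⟩ := mem_seg hy
      simp only at f3 f4 f5
      push_cast at f2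
      right
      refine ⟨?_, ?_⟩ <;> omega
  refine cross_of ?_ ?_
  · omega
  · intro h
    unfold adj3 at h
    simp only
    rcases hy with hy | hy <;>
    rcases h with ⟨g1, g2, g3 | g3⟩ | ⟨g1, g2, g3 | g3⟩ | ⟨g1, g2, g3 | g3⟩ <;>
      first
      | (exfalso; omega)
      | (refine ⟨⟨?_, ?_, ?_⟩, ?_, ?_, ?_⟩ <;> omega)

theorem pM_facts {l H q x u v : ℤ} (hl : 0 ≤ l) (hq : 1 ≤ q) (hH : 2 ≤ H)
    (h : pM l H q x u v) :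
    (-1 ≤ u - v ∧ u - v ≤ 4 * q + 3 ∧ 1 ≤ v ∧ v ≤ 2 * H ∧ 1 ≤ u) ∧
    (4 * q + 1 ≤ u - v → x = 2 ∧ v = 1) ∧
    (u - v = -1 → x = -l) ∧ x ≤ 2 ∧ (1 ≤ x → v = 1) ∧ (v = 1 → u ≤ 4 * q + 4) ∧
    2 - l - 4 * q ≤ x ∧ (u - v = 0 → 1 ≤ x → u = 1) := by
  unfold pM at h
  rcases h with h | h | h
  · obtain ⟨a1, a2, a3, a4, a5, a6, a7⟩ := pR_facts hl hH h
    refine ⟨⟨?_, ?_, ?_, ?_, ?_⟩, ?_, ?_, ?_, ?_, ?_, ?_, ?_⟩ <;> omega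
  · refine ⟨⟨?_, ?_, ?_, ?_, ?_⟩, ?_, ?_, ?_, ?_, ?_, ?_, ?_⟩ <;> omega
  · refine ⟨⟨?_, ?_, ?_, ?_, ?_⟩, ?_, ?_, ?_, ?_, ?_, ?_, ?_⟩ <;> omega

/-- the modules of a band -/
def tN (l H q N : ℕ) : List P3 := rep ⟨0, 4 * q + 4, 0⟩ (tM l H q) N

def pN (l H q N x u v : ℤ) : Prop :=
  ∃ j, 0 ≤ j ∧ j < N ∧ pM l H q x (u - j * (4 * q + 4)) v

theorem mem_tN {l H q N : ℕ} (hH : 1 ≤ H) {p : P3} (h : p ∈ tN l H q N) :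
    pN l H q N p.x p.u p.v := by
  obtain ⟨k, h1, h2, y, hy, rfl⟩ := mem_rep h
  refine ⟨k, h1, h2, ?_⟩
  have h3 := mem_tM hH hy
  have e1 : (shk ⟨0, 4 * q + 4, 0⟩ k y).x = y.x := by simp only [shk]; ring
  have e2 : (shk ⟨0, 4 * q + 4, 0⟩ k y).u - k * (4 * q + 4) = y.u := by simp only [shk]; ring
  have e3 : (shk ⟨0, 4 * q + 4, 0⟩ k y).v = y.v := by simp only [shk]; ring
  rw [e1, e2, e3]
  exact h3

theorem ip_tN (l H q N : ℕ) (hl : 4 ≤ l) (hH : 2 ≤ H) (hq : 1 ≤ q) (hN : 1 ≤ N) :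
    IP adj3 ⟨2, 1, 1⟩ ⟨2, N * (4 * q + 4), 1⟩ (tN l H q N) := by
  obtain ⟨m, rfl⟩ : ∃ m, N = m + 1 := ⟨N - 1, by omega⟩
  have h := (ip_tM l H q hl hH hq).rep (w := ⟨0, 4 * q + 4, 0⟩)
    (Or.inr (Or.inl ⟨by simp [sh], by simp [sh], Or.inr (by simp only [sh]; ring)⟩)) (by
    intro k hk x hx y hy
    obtain ⟨a1, a2, a3, a4, a5, a6, -, a8⟩ := pM_facts (by omega) (by omega) (by omega)
      (mem_tM (by omega) hx)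
    obtain ⟨b1, b2, b3, b4, b5, b6, -, b8⟩ := pM_facts (by omega) (by omega) (by omega)
      (mem_tM (by omega) hy)
    have hK : k * (4 * (q : ℤ) + 4) = 4 * q + 4 ∨ 2 * (4 * (q : ℤ) + 4) ≤ k * (4 * q + 4) := by
      rcases eq_or_lt_of_le hk with h | h
      · left; rw [← h]; ring
      · right
        exact mul_le_mul_of_nonneg_right (by omega) (by positivity)
    unfold shk sh
    simp only
    set K : ℤ := k * (4 * (q : ℤ) + 4) with hKd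
    refine cross_of ?_ ?_
    · simp only
      intro hc
      omega
    · intro h
      unfold adj3 at h
      simp only at h ⊢
      rcases h with ⟨g1, g2, g3 | g3⟩ | ⟨g1, g2, g3 | g3⟩ | ⟨g1, g2, g3 | g3⟩ <;>
        first
        | (exfalso; omega)
        | (refine ⟨⟨?_, ?_, ?_⟩, ?_, ?_, ?_⟩ <;> omega)) m
  have e : shk ⟨0, 4 * q + 4, 0⟩ m ⟨2, 4 * q + 4, 1⟩ =
      ⟨2, ((m + 1 : ℕ) : ℤ) * (4 * q + 4), 1⟩ := by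
    unfold shk
    ext <;> push_cast <;> ring
  rw [e] at h
  exact h

theorem pN_facts {l H q N x u v : ℤ} (hl : 0 ≤ l) (hq : 1 ≤ q) (hH : 2 ≤ H)
    (h : pN l H q N x u v) :
    (1 ≤ v ∧ v ≤ 2 * H ∧ 1 ≤ u) ∧ x ≤ 2 ∧ (1 ≤ x → v = 1) ∧ (v = 1 → u ≤ N * (4 * q + 4)) ∧
    2 - l - 4 * q ≤ x ∧ u ≤ N * (4 * q + 4) + 2 * H - 1 := by
  obtain ⟨j, h1, h2, h3⟩ := h
  obtain ⟨a1, a2, a3, a4, a5, a6, a7, a8⟩ := pM_facts hl hq hH h3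
  have hJ : 0 ≤ j * (4 * q + 4) := mul_nonneg h1 (by omega)
  have hJ2 : (j + 1) * (4 * q + 4) ≤ N * (4 * q + 4) :=
    mul_le_mul_of_nonneg_right (by omega) (by omega)
  have hJ3 : (j + 1) * (4 * q + 4) = j * (4 * q + 4) + (4 * q + 4) := by ring
  rw [hJ3] at hJ2
  set J := j * (4 * q + 4)
  set E := N * (4 * q + 4)
  refine ⟨⟨?_, ?_, ?_⟩, ?_, ?_, ?_, ?_, ?_⟩ <;> omega

end Pool.Agent.Lib.MP_1a3405_co.Sn
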