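import Mathlib
import Pool.Agent.Lib.MP_1a3405_co.Sn.Module

/-!
Bands with a return wire, and their repetition.
-/

namespace Pool.Agent.Lib.MP_1a3405_co.Sn

/-- a band with its return wire; `R` is the row of the return wire, `W` the period -/
def tB (l H q N R W : ℕ) : List P3 :=
  tN l H q N ++ (rep ⟨0, 0, 1⟩ [⟨2, N * (4 * q + 4) + 1, 1⟩] R ++
    (rep ⟨0, -1, 0⟩ [⟨2, N * (4 * q + 4), R⟩] (N * (4 * q + 4)) ++
      rep ⟨0, 0, 1⟩ [⟨2, 1, R + 1⟩] (W - R)))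

def pB (l H q N R W x u v : ℤ) : Prop :=
  pN l H q N x u v ∨ (x = 2 ∧ u = N * (4 * q + 4) + 1 ∧ 1 ≤ v ∧ v ≤ R) ∨
    (x = 2 ∧ v = R ∧ 1 ≤ u ∧ u ≤ N * (4 * q + 4)) ∨ (x = 2 ∧ u = 1 ∧ R + 1 ≤ v ∧ v ≤ W)

theorem mem_tB {l H q N R W : ℕ} (hH : 1 ≤ H) (hR : R ≤ W) {p : P3} (h : p ∈ tB l H q N R W) :
    pB l H q N R W p.x p.u p.v := by
  unfold tB at h
  simp only [List.mem_append] at h
  unfold pB
  rcases h with h | h | h | h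
  · exact Or.inl (mem_tN hH h)
  · obtain ⟨k, h1, h2, h3, h4, h5⟩ := mem_seg h
    simp only at h3 h4 h5
    right; left
    refine ⟨?_, ?_, ?_, ?_⟩ <;> omega
  · obtain ⟨k, h1, h2, h3, h4, h5⟩ := mem_seg h
    simp only at h3 h4 h5
    push_cast at h2
    right; right; left
    refine ⟨?_, ?_, ?_, ?_⟩ <;> omega
  · obtain ⟨k, h1, h2, h3, h4, h5⟩ := mem_seg h
    simp only at h3 h4 h5
    have h6 : ((W - R : ℕ) : ℤ) = W - R := by omega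
    rw [h6] at h2
    right; right; right
    refine ⟨?_, ?_, ?_, ?_⟩ <;> omega

theorem ip_tB (l H q N R W : ℕ) (hl : 4 ≤ l) (hH : 2 ≤ H) (hq : 1 ≤ q) (hN : 1 ≤ N)
    (hR : R = 2 * H + 2) (hW : R + 1 ≤ W) :
    IP adj3 ⟨2, 1, 1⟩ ⟨2, 1, W⟩ (tB l H q N R W) := by
  have hE : 8 ≤ (N : ℤ) * (4 * q + 4) := by
    have h1 : (1 : ℤ) * (4 * q + 4) ≤ (N : ℤ) * (4 * q + 4) :=
      mul_le_mul_of_nonneg_right (by omega) (by omega)
    omega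
  have h1 := ip_tN l H q N hl hH hq hN
  obtain ⟨R', hR'⟩ : ∃ R', R = R' + 1 := ⟨R - 1, by omega⟩
  obtain ⟨E', hE'⟩ : ∃ E', N * (4 * q + 4) = E' + 1 := ⟨N * (4 * q + 4) - 1, by
    have : 8 ≤ N * (4 * q + 4) := by exact_mod_cast hE
    omega⟩
  obtain ⟨D, hD⟩ : ∃ D, W - R = D + 1 := ⟨W - R - 1, by omega⟩
  have hE2 : (N : ℤ) * (4 * q + 4) = E' + 1 := by exact_mod_cast hE'
  have h2 := seg_ip (w := ⟨0, 0, 1⟩) (p := ⟨2, N * (4 * q + 4) + 1, 1⟩) (by simp) R'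
  have h3 := seg_ip (w := ⟨0, -1, 0⟩) (p := ⟨2, N * (4 * q + 4), R⟩) (by simp) E'
  have h4 := seg_ip (w := ⟨0, 0, 1⟩) (p := ⟨2, 1, R + 1⟩) (by simp) D
  have e2 : shk ⟨0, 0, 1⟩ (R' : ℤ) ⟨2, N * (4 * q + 4) + 1, 1⟩ =
      ⟨2, N * (4 * q + 4) + 1, R⟩ := by
    unfold shk
    ext <;> simp only <;> omega
  have e3 : shk ⟨0, -1, 0⟩ (E' : ℤ) ⟨2, N * (4 * q + 4), R⟩ = ⟨2, 1, R⟩ := by
    unfold shk
    ext <;> simp only <;> omega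
  have e4 : shk ⟨0, 0, 1⟩ (D : ℤ) ⟨2, 1, R + 1⟩ = ⟨2, 1, W⟩ := by
    unfold shk
    ext <;> simp only <;> omega
  rw [e2] at h2
  rw [e3] at h3
  rw [e4] at h4
  have h5 : IP adj3 ⟨2, N * (4 * q + 4), R⟩ ⟨2, 1, W⟩
      (rep ⟨0, -1, 0⟩ [⟨2, N * (4 * q + 4), R⟩] (E' + 1) ++
        rep ⟨0, 0, 1⟩ [⟨2, 1, R + 1⟩] (D + 1)) := by
    refine h3.append h4 (Or.inr (Or.inr ⟨rfl, rfl, Or.inr rfl⟩)) ?_
    intro x hx y hy
    obtain ⟨k, g1, g2, g3, g4, g5⟩ := mem_seg hx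
    obtain ⟨k', f1, f2, f3, f4, f5⟩ := mem_seg hy
    simp only at g3 g4 g5 f3 f4 f5
    push_cast at g2 f2
    refine cross_of ?_ ?_
    · omega
    · intro h
      unfold adj3 at h
      simp only
      rcases h with ⟨a1, a2, a3 | a3⟩ | ⟨a1, a2, a3 | a3⟩ | ⟨a1, a2, a3 | a3⟩ <;>
        first
        | (exfalso; omega)
        | (refine ⟨⟨?_, ?_, ?_⟩, ?_, ?_, ?_⟩ <;> omega)
  have h6 : IP adj3 ⟨2, N * (4 * q + 4) + 1, 1⟩ ⟨2, 1, W⟩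
      (rep ⟨0, 0, 1⟩ [⟨2, N * (4 * q + 4) + 1, 1⟩] (R' + 1) ++
      (rep ⟨0, -1, 0⟩ [⟨2, N * (4 * q + 4), R⟩] (E' + 1) ++
        rep ⟨0, 0, 1⟩ [⟨2, 1, R + 1⟩] (D + 1))) := by
    refine h2.append h5 (Or.inr (Or.inl ⟨rfl, rfl, Or.inl rfl⟩)) ?_
    intro x hx y hy
    obtain ⟨k, g1, g2, g3, g4, g5⟩ := mem_seg hx
    simp only at g3 g4 g5
    push_cast at g2
    have hy : (y.x = 2 ∧ y.v = R ∧ 1 ≤ y.u ∧ y.u ≤ N * (4 * (q : ℤ) + 4)) ∨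
        (y.x = 2 ∧ y.u = 1 ∧ (R : ℤ) + 1 ≤ y.v) := by
      rw [List.mem_append] at hy
      rcases hy with hy | hy
      · obtain ⟨k', f1, f2, f3, f4, f5⟩ := mem_seg hy
        simp only at f3 f4 f5
        push_cast at f2
        left
        refine ⟨?_, ?_, ?_, ?_⟩ <;> omega
      · obtain ⟨k', f1, f2, f3, f4, f5⟩ := mem_seg hy
        simp only at f3 f4 f5
        push_cast at f2
        right
        refine ⟨?_, ?_, ?_⟩ <;> omega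
    refine cross_of ?_ ?_
    · omega
    · intro h
      unfold adj3 at h
      simp only
      rcases hy with hy | hy <;>
      rcases h with ⟨a1, a2, a3 | a3⟩ | ⟨a1, a2, a3 | a3⟩ | ⟨a1, a2, a3 | a3⟩ <;>
        first
        | (exfalso; omega)
        | (refine ⟨⟨?_, ?_, ?_⟩, ?_, ?_, ?_⟩ <;> omega)
  unfold tB
  rw [hE', hD]
  nth_rewrite 1 [hR']
  refine h1.append h6 (Or.inr (Or.inl ⟨rfl, rfl, Or.inr rfl⟩)) ?_
  intro x hx y hy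
  obtain ⟨a1, a2, a3, a4, -, -⟩ := pN_facts (by omega) (by omega) (by omega)
    (mem_tN (by omega) hx)
  have hy : (y.x = 2 ∧ y.u = N * (4 * (q : ℤ) + 4) + 1 ∧ 1 ≤ y.v ∧ y.v ≤ R) ∨
      (y.x = 2 ∧ (R : ℤ) ≤ y.v) := by
    rw [List.mem_append, List.mem_append] at hy
    rcases hy with hy | hy | hy
    · obtain ⟨k', f1, f2, f3, f4, f5⟩ := mem_seg hy
      simp only at f3 f4 f5
      push_cast at f2
      left
      refine ⟨?_, ?_, ?_, ?_⟩ <;> omega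
    · obtain ⟨k', f1, f2, f3, f4, f5⟩ := mem_seg hy
      simp only at f3 f4 f5
      push_cast at f2
      right
      refine ⟨?_, ?_⟩ <;> omega
    · obtain ⟨k', f1, f2, f3, f4, f5⟩ := mem_seg hy
      simp only at f3 f4 f5
      push_cast at f2
      right
      refine ⟨?_, ?_⟩ <;> omega
  refine cross_of ?_ ?_
  · rcases hy with hy | hy <;> omega
  · intro h
    unfold adj3 at h
    simp only
    rcases hy with hy | hy <;>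
    rcases h with ⟨g1, g2, g3 | g3⟩ | ⟨g1, g2, g3 | g3⟩ | ⟨g1, g2, g3 | g3⟩ <;>
      first
      | (exfalso; omega)
      | (refine ⟨⟨?_, ?_, ?_⟩, ?_, ?_, ?_⟩ <;> omega)

theorem pB_facts {l H q N R W x u v : ℤ} (hl : 0 ≤ l) (hq : 1 ≤ q) (hH : 2 ≤ H) (hN : 1 ≤ N)
    (hR : R = 2 * H + 2) (hW : R + 1 ≤ W) (h : pB l H q N R W x u v) :
    (1 ≤ v ∧ v ≤ W ∧ 1 ≤ u) ∧ x ≤ 2 ∧ (v = W → x = 2 ∧ u = 1) ∧ 2 - l - 4 * q ≤ x ∧
    u ≤ N * (4 * q + 4) + 2 * H - 1 := by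
  have hE : 8 ≤ N * (4 * q + 4) := by
    have h1 : (1 : ℤ) * (4 * q + 4) ≤ N * (4 * q + 4) :=
      mul_le_mul_of_nonneg_right (by omega) (by omega)
    omega
  unfold pB at h
  rcases h with h | h | h | h
  · obtain ⟨a1, a2, a3, a4, a5, a6⟩ := pN_facts hl hq hH h
    refine ⟨⟨?_, ?_, ?_⟩, ?_, ?_, ?_, ?_⟩ <;> omega
  · refine ⟨⟨?_, ?_, ?_⟩, ?_, ?_, ?_, ?_⟩ <;> omega
  · refine ⟨⟨?_, ?_, ?_⟩, ?_, ?_, ?_, ?_⟩ <;> omega
  · refine ⟨⟨?_, ?_, ?_⟩, ?_, ?_, ?_, ?_⟩ <;> omega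

/-- the full structure -/
def tF3 (l H q N R W M : ℕ) : List P3 := rep ⟨0, 0, W⟩ (tB l H q N R W) M

def pF3 (l H q N R W M x u v : ℤ) : Prop :=
  ∃ i, 0 ≤ i ∧ i < M ∧ pB l H q N R W x u (v - i * W)

theorem mem_tF3 {l H q N R W M : ℕ} (hH : 1 ≤ H) (hR : R ≤ W) {p : P3}
    (h : p ∈ tF3 l H q N R W M) : pF3 l H q N R W M p.x p.u p.v := by
  obtain ⟨k, h1, h2, y, hy, rfl⟩ := mem_rep h
  refine ⟨k, h1, h2, ?_⟩
  have h3 := mem_tB hH hR hy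
  have e1 : (shk ⟨0, 0, W⟩ k y).x = y.x := by simp only [shk]; ring
  have e2 : (shk ⟨0, 0, W⟩ k y).u = y.u := by simp only [shk]; ring
  have e3 : (shk ⟨0, 0, W⟩ k y).v - k * W = y.v := by simp only [shk]; ring
  rw [e1, e2, e3]
  exact h3

theorem ip_tF3 (l H q N R W M : ℕ) (hl : 4 ≤ l) (hH : 2 ≤ H) (hq : 1 ≤ q) (hN : 1 ≤ N)
    (hR : R = 2 * H + 2) (hW : R + 1 ≤ W) (hM : 1 ≤ M) :
    IP adj3 ⟨2, 1, 1⟩ ⟨2, 1, M * W⟩ (tF3 l H q N R W M) := by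
  obtain ⟨m, rfl⟩ : ∃ m, M = m + 1 := ⟨M - 1, by omega⟩
  have h := (ip_tB l H q N R W hl hH hq hN hR hW).rep (w := ⟨0, 0, W⟩)
    (Or.inr (Or.inr ⟨rfl, rfl, Or.inr (by simp only [sh]; ring)⟩)) (by
    intro k hk x hx y hy
    obtain ⟨a1, a2, a3, -, -⟩ := pB_facts (by omega) (by omega) (by omega) (by omega)
      (by omega) (by omega) (mem_tB (by omega) (by omega) hx)
    obtain ⟨b1, b2, b3, -, -⟩ := pB_facts (by omega) (by omega) (by omega) (by omega)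
      (by omega) (by omega) (mem_tB (by omega) (by omega) hy)
    have hK : k * (W : ℤ) = W ∨ 2 * (W : ℤ) ≤ k * W := by
      rcases eq_or_lt_of_le hk with h | h
      · left; rw [← h]; ring
      · right
        exact mul_le_mul_of_nonneg_right (by omega) (by positivity)
    unfold shk sh
    simp only
    set K : ℤ := k * (W : ℤ) with hKd
    refine cross_of ?_ ?_
    · simp only
      intro hc
      omega
    · intro h
      unfold adj3 at h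
      simp only at h ⊢
      rcases h with ⟨g1, g2, g3 | g3⟩ | ⟨g1, g2, g3 | g3⟩ | ⟨g1, g2, g3 | g3⟩ <;>
        first
        | (exfalso; omega)
        | (refine ⟨⟨?_, ?_, ?_⟩, ?_, ?_, ?_⟩ <;> omega)) m
  have e : shk ⟨0, 0, W⟩ m ⟨2, 1, W⟩ = ⟨2, 1, ((m + 1 : ℕ) : ℤ) * W⟩ := by
    unfold shk
    ext <;> push_cast <;> ring
  rw [e] at h
  exact h

theorem pF3_facts {l H q N R W M x u v : ℤ} (hl : 0 ≤ l) (hq : 1 ≤ q) (hH : 2 ≤ H) (hN : 1 ≤ N)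
    (hR : R = 2 * H + 2) (hW : R + 1 ≤ W) (h : pF3 l H q N R W M x u v) :
    (1 ≤ v ∧ v ≤ M * W ∧ 1 ≤ u) ∧ x ≤ 2 ∧ (v = M * W → x = 2 ∧ u = 1) ∧ 2 - l - 4 * q ≤ x ∧
    u ≤ N * (4 * q + 4) + 2 * H - 1 := by
  obtain ⟨j, h1, h2, h3⟩ := h
  obtain ⟨a1, a2, a3, a4, a5⟩ := pB_facts hl hq hH hN hR hW h3
  have hJ : 0 ≤ j * W := mul_nonneg h1 (by omega)
  have hJ2 : (j + 1) * W ≤ M * W := mul_le_mul_of_nonneg_right (by omega) (by omega)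
  have hJ3 : (j + 1) * W = j * W + W := by ring
  rw [hJ3] at hJ2
  set J := j * W
  set F := M * W
  set E := N * (4 * q + 4)
  refine ⟨⟨?_, ?_, ?_⟩, ?_, ?_, ?_, ?_⟩ <;> omega

end Pool.Agent.Lib.MP_1a3405_co.Sn
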