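import Mathlib
import Pool.Agent.Lib.MP_1a3405_co.Sn.Band

/-!
The structure and its translated smaller copy are disjoint.
-/

namespace Pool.Agent.Lib.MP_1a3405_co.Sn

theorem disjR {l H q x u v : ℤ} (hl : 4 ≤ l) (h1 : pR l H q x u v)
    (h2 : pR l (H - 1) q (x + 1) (u - 3) (v - 2)) : False := by
  obtain ⟨k, -, -, h3⟩ := h1
  obtain ⟨k', -, -, h4⟩ := h2
  unfold pT pS pD at h3 h4
  rcases h3 with (h3 | h3 | h3) | (h3 | h3 | h3) | h3 | h3 <;>
    rcases h4 with (h4 | h4 | h4) | (h4 | h4 | h4) | h4 | h4 <;> omega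

theorem disjM {l H q x u v : ℤ} (hl : 4 ≤ l) (hq : 1 ≤ q) (hH : 3 ≤ H) (h1 : pM l H q x u v)
    (h2 : pM l (H - 1) q (x + 1) (u - 3) (v - 2)) : False := by
  have a := pM_facts (by omega) hq (by omega) h1
  have b := pM_facts (by omega) hq (by omega) h2
  unfold pM at h1 h2
  rcases h1 with h1 | h1 | h1
  · have a' := pR_facts (by omega) (by omega) h1
    rcases h2 with h2 | h2 | h2
    · exact disjR hl h1 h2
    · omega
    · omega
  · omega
  · omega

theorem disjN {l H q N x u v : ℤ} (hl : 4 ≤ l) (hq : 1 ≤ q) (hH : 3 ≤ H) (h1 : pN l H q N x u v)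
    (h2 : pN l (H - 1) q N (x + 1) (u - 3) (v - 2)) : False := by
  obtain ⟨j, -, -, h3⟩ := h1
  obtain ⟨j', -, -, h4⟩ := h2
  have a := pM_facts (by omega) hq (by omega) h3
  have b := pM_facts (by omega) hq (by omega) h4
  have hW : 0 < 4 * q + 4 := by omega
  have hd : j = j' ∨ j * (4 * q + 4) = j' * (4 * q + 4) + (4 * q + 4) := by
    by_contra hcon
    push Not at hcon
    obtain ⟨hc1, hc2⟩ := hcon
    rcases lt_or_gt_of_ne hc1 with h | h
    · have : (j + 1) * (4 * q + 4) ≤ j' * (4 * q + 4) :=
        mul_le_mul_of_nonneg_right (by omega) (by omega)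
      have e : (j + 1) * (4 * q + 4) = j * (4 * q + 4) + (4 * q + 4) := by ring
      omega
    · rcases eq_or_lt_of_le (show j' + 1 ≤ j by omega) with h' | h'
      · apply hc2
        rw [← h']
        ring
      · have : (j' + 2) * (4 * q + 4) ≤ j * (4 * q + 4) :=
          mul_le_mul_of_nonneg_right (by omega) (by omega)
        have e : (j' + 2) * (4 * q + 4) = j' * (4 * q + 4) + 2 * (4 * q + 4) := by ring
        omega
  rcases hd with rfl | hd
  · have e : u - 3 - j * (4 * q + 4) = u - j * (4 * q + 4) - 3 := by ring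
    rw [e] at h4
    exact disjM hl hq hH h3 h4
  · omega

theorem pM_one {l H q u : ℤ} (hl : 0 ≤ l) (hH : 2 ≤ H) (h : pM l H q 1 u 1) :
    u = 1 ∨ u = 4 * q + 1 := by
  unfold pM at h
  rcases h with h | h | h
  · have := pR_facts hl hH h
    omega
  · omega
  · omega

theorem disjF3 {l H q N R W M x u v : ℤ} (hl : 4 ≤ l) (hq : 1 ≤ q) (hH : 3 ≤ H) (hN : 1 ≤ N)
    (hR : R = 2 * H + 2) (hW : R + 1 ≤ W) (h1 : pF3 l H q N R W M x u v)
    (h2 : pF3 l (H - 1) q N (R - 2) W M (x + 1) (u - 3) (v - 2)) : False := by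
  have b0 := pF3_facts (by omega) hq (by omega) hN (by omega) (by omega) h2
  obtain ⟨i, hi, -, h3⟩ := h1
  obtain ⟨i', hi', -, h4⟩ := h2
  unfold pB at h3
  rcases h3 with h3 | h3 | h3 | h3
  · have a := pN_facts (by omega) hq (by omega) h3
    unfold pB at h4
    rcases h4 with h4 | h4 | h4 | h4
    · have b := pN_facts (by omega) hq (by omega) h4
      have hd : i = i' := by
        by_contra hcon
        rcases lt_or_gt_of_ne hcon with h | h
        · have : (i + 1) * W ≤ i' * W := mul_le_mul_of_nonneg_right (by omega) (by omega)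
          have e : (i + 1) * W = i * W + W := by ring
          omega
        · have : (i' + 1) * W ≤ i * W := mul_le_mul_of_nonneg_right (by omega) (by omega)
          have e : (i' + 1) * W = i' * W + W := by ring
          omega
      subst hd
      have e : v - 2 - i * W = v - i * W - 2 := by ring
      rw [e] at h4
      exact disjN hl hq hH h3 h4
    · omega
    · rcases lt_or_ge i' i with h | h
      · have : (i' + 1) * W ≤ i * W := mul_le_mul_of_nonneg_right (by omega) (by omega)
        have e : (i' + 1) * W = i' * W + W := by ring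
        omega
      · have : i * W ≤ i' * W := mul_le_mul_of_nonneg_right (by omega) (by omega)
        omega
    · obtain ⟨j, hj, -, h5⟩ := h3
      have hx : x = 1 := by omega
      have hv : v - i * W = 1 := by omega
      have c := pM_facts (by omega) hq (by omega) h5
      rw [hx, hv] at h5
      have h6 := pM_one (by omega) (by omega) h5
      have hJ : j = 0 ∨ 4 * q + 4 ≤ j * (4 * q + 4) := by
        rcases eq_or_lt_of_le hj with h | h
        · left; exact h.symm
        · right
          have : 1 * (4 * q + 4) ≤ j * (4 * q + 4) :=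
            mul_le_mul_of_nonneg_right (by omega) (by omega)
          omega
      rcases hJ with rfl | hJ
      · omega
      · omega
  · omega
  · omega
  · omega

theorem notF3 {l H q N R W M x : ℤ} (hl : 4 ≤ l) (hq : 1 ≤ q) (hH : 3 ≤ H) (hN : 1 ≤ N)
    (hR : R = 2 * H + 2) (hW : R + 1 ≤ W) (hx : 2 ≤ x) (h1 : pF3 l H q N R W M x 4 3) : False := by
  have hE : 8 ≤ N * (4 * q + 4) := by
    have h1 : (1 : ℤ) * (4 * q + 4) ≤ N * (4 * q + 4) :=
      mul_le_mul_of_nonneg_right (by omega) (by omega)
    omega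
  obtain ⟨i, hi, -, h3⟩ := h1
  have a := pB_facts (by omega) hq (by omega) hN hR hW h3
  have hi0 : i = 0 := by
    by_contra hcon
    have : 1 * W ≤ i * W := mul_le_mul_of_nonneg_right (by omega) (by omega)
    omega
  subst hi0
  unfold pB at h3
  rcases h3 with h3 | h3 | h3 | h3
  · have := pN_facts (by omega) hq (by omega) h3
    omega
  · omega
  · omega
  · omega

end Pool.Agent.Lib.MP_1a3405_co.Sn
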