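import Mathlib
import Pool.Agent.Lib.MP_1a3405_co.Sn.Disj

/-!
Families of induced paths (two kinds `A` and `B`, with coloured end points) and the base family
in dimension `3`.
-/

namespace Pool.Agent.Lib.MP_1a3405_co.Sn

/-- adjacency in `ℤ^D` -/
def adjZ {D : ℕ} (p q : Fin D → ℤ) : Prop :=
  ∃ i, (∀ j, j ≠ i → p j = q j) ∧ (p i = q i + 1 ∨ q i = p i + 1)

theorem adjZ_symm {D : ℕ} (p q : Fin D → ℤ) (h : adjZ p q) : adjZ q p := by
  obtain ⟨i, h1, h2⟩ := h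
  exact ⟨i, fun j hj => (h1 j hj).symm, h2.symm⟩

theorem adjZ_irrefl {D : ℕ} (p : Fin D → ℤ) : ¬ adjZ p p := by
  rintro ⟨i, -, h | h⟩ <;> omega

/-- A family of induced paths: `A i j` and `B i j` lead from `a i` to `b j`, and paths of
different kind meet only in common end points. -/
def Fam (D C m N : ℕ) : Prop :=
  ∃ (a b : ℕ → Fin (D + 1) → ℤ) (A B : ℕ → ℕ → List (Fin (D + 1) → ℤ)),
    (∀ i j, i < C → j < C → IP adjZ (a i) (b j) (A i j) ∧ IP adjZ (a i) (b j) (B i j) ∧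
      N ≤ (A i j).length ∧ N ≤ (B i j).length ∧
      (∀ p ∈ A i j, (∀ t, 1 ≤ p t ∧ p t ≤ m) ∧ p 0 ≤ b j 0) ∧
      (∀ p ∈ B i j, (∀ t, 1 ≤ p t ∧ p t ≤ m) ∧ p 0 ≤ b j 0)) ∧
    (∀ i j i' j', i < C → j < C → i' < C → j' < C → ∀ p ∈ A i j, p ∈ B i' j' →
      (p = a i ∧ i = i') ∨ (p = b j ∧ j = j'))

/-- the embedding of the points -/
def emb (o : ℤ) (p : P3) : Fin 3 → ℤ := ![p.v, p.u, p.x + o]

theorem emb_injective (o : ℤ) : Function.Injective (emb o) := by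
  intro p q h
  have h0 := congrFun h 0
  have h1 := congrFun h 1
  have h2 := congrFun h 2
  simp only [emb, Matrix.cons_val_zero, Matrix.cons_val_one, Matrix.cons_val] at h0 h1 h2
  exact P3.ext (by omega) h1 h0

theorem adj_emb (o : ℤ) (p q : P3) : adjZ (emb o p) (emb o q) ↔ adj3 p q := by
  unfold adjZ adj3 emb
  constructor
  · rintro ⟨i, h1, h2⟩
    have g0 := h1 0
    have g1 := h1 1
    have g2 := h1 2
    fin_cases i
    · simp at g1 g2 h2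
      right; right
      refine ⟨?_, ?_, ?_⟩ <;> omega
    · simp at g0 g2 h2
      right; left
      refine ⟨?_, ?_, ?_⟩ <;> omega
    · simp at g0 g1 h2
      left
      refine ⟨?_, ?_, ?_⟩ <;> omega
  · rintro (⟨h1, h2, h3⟩ | ⟨h1, h2, h3⟩ | ⟨h1, h2, h3⟩)
    · refine ⟨2, ?_, ?_⟩
      · intro j hj
        fin_cases j
        · simpa using h2
        · simpa using h1
        · exact absurd rfl hj
      · simp
        omega
    · refine ⟨1, ?_, ?_⟩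
      · intro j hj
        fin_cases j
        · simpa using h2
        · exact absurd rfl hj
        · simpa using h1
      · simpa using h3
    · refine ⟨0, ?_, ?_⟩
      · intro j hj
        fin_cases j
        · exact absurd rfl hj
        · simpa using h2
        · simpa using h1
      · simpa using h3

/-- the start of a path of kind `A` -/
def tAs (X : ℕ) : List P3 := ⟨X, 1, 3⟩ :: ⟨X, 1, 2⟩ :: rep ⟨-1, 0, 0⟩ [⟨X, 1, 1⟩] (X - 2)

theorem mem_tAs {X : ℕ} (hX : 4 ≤ X) {p : P3} (h : p ∈ tAs X) :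
    (p.x = X ∧ p.u = 1 ∧ p.v = 3) ∨ (p.x = X ∧ p.u = 1 ∧ p.v = 2) ∨
      (p.u = 1 ∧ p.v = 1 ∧ 3 ≤ p.x ∧ p.x ≤ X) := by
  unfold tAs at h
  rcases List.mem_cons.1 h with rfl | h
  · simp
  · rcases List.mem_cons.1 h with rfl | h
    · simp
    · obtain ⟨k, h1, h2, h3, h4, h5⟩ := mem_seg h
      simp only at h3 h4 h5
      right; right
      refine ⟨?_, ?_, ?_, ?_⟩ <;> omega

theorem ip_tAs (X : ℕ) (hX : 4 ≤ X) : IP adj3 ⟨X, 1, 3⟩ ⟨3, 1, 1⟩ (tAs X) := by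
  obtain ⟨m, hm⟩ : ∃ m, X - 2 = m + 1 := ⟨X - 3, by omega⟩
  have h := seg_ip (w := ⟨-1, 0, 0⟩) (p := ⟨X, 1, 1⟩) (by simp) m
  have e : shk ⟨-1, 0, 0⟩ m ⟨X, 1, 1⟩ = ⟨3, 1, 1⟩ := by
    unfold shk
    ext <;> simp only <;> omega
  rw [e] at h
  unfold tAs
  rw [hm]
  have h2 : IP adj3 ⟨X, 1, 2⟩ ⟨3, 1, 1⟩ (⟨X, 1, 2⟩ :: rep ⟨-1, 0, 0⟩ [⟨X, 1, 1⟩] (m + 1)) := by
    refine h.cons_of (by unfold adj3; simp) ?_ ?_
    · intro y hy
      obtain ⟨k, h1, h2, h3, h4, h5⟩ := mem_seg hy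
      simp only at h3 h4 h5 ⊢
      omega
    · intro y hy g
      obtain ⟨k, h1, h2, h3, h4, h5⟩ := mem_seg hy
      unfold adj3 at g
      simp only at h3 h4 h5 g ⊢
      omega
  refine h2.cons_of (by unfold adj3; simp) ?_ ?_
  · intro y hy
    rcases List.mem_cons.1 hy with rfl | hy
    · simp
    · obtain ⟨k, h1, h2, h3, h4, h5⟩ := mem_seg hy
      simp only at h3 h4 h5 ⊢
      omega
  · intro y hy g
    rcases List.mem_cons.1 hy with rfl | hy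
    · simp
    · obtain ⟨k, h1, h2, h3, h4, h5⟩ := mem_seg hy
      unfold adj3 at g
      simp only at h3 h4 h5 g ⊢
      omega

/-- the end of a path of kind `A` -/
def tAe (X : ℕ) (V : ℤ) : List P3 :=
  rep ⟨1, 0, 0⟩ [⟨2, 1, V + 1⟩] (X - 1) ++ [⟨X, 1, V + 2⟩, ⟨X, 1, V + 3⟩]

theorem mem_tAe {X : ℕ} {V : ℤ} (hX : 4 ≤ X) {p : P3} (h : p ∈ tAe X V) :
    (p.x = X ∧ p.u = 1 ∧ p.v = V + 3) ∨ (p.x = X ∧ p.u = 1 ∧ p.v = V + 2) ∨
      (p.u = 1 ∧ p.v = V + 1 ∧ 2 ≤ p.x ∧ p.x ≤ X) := by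
  unfold tAe at h
  simp only [List.mem_append, List.mem_cons, List.not_mem_nil, or_false] at h
  rcases h with h | rfl | rfl
  · obtain ⟨k, h1, h2, h3, h4, h5⟩ := mem_seg h
    simp only at h3 h4 h5
    right; right
    refine ⟨?_, ?_, ?_, ?_⟩ <;> omega
  · simp
  · simp

theorem ip_tAe (X : ℕ) (V : ℤ) (hX : 4 ≤ X) :
    IP adj3 ⟨2, 1, V + 1⟩ ⟨X, 1, V + 3⟩ (tAe X V) := by
  obtain ⟨m, hm⟩ : ∃ m, X - 1 = m + 1 := ⟨X - 2, by omega⟩
  have h := seg_ip (w := ⟨1, 0, 0⟩) (p := ⟨2, 1, V + 1⟩) (by simp) m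
  have e : shk ⟨1, 0, 0⟩ m ⟨2, 1, V + 1⟩ = ⟨X, 1, V + 1⟩ := by
    unfold shk
    ext <;> simp only <;> omega
  rw [e] at h
  unfold tAe
  rw [hm]
  have h2 : IP adj3 ⟨X, 1, V + 2⟩ ⟨X, 1, V + 3⟩ [⟨X, 1, V + 2⟩, ⟨X, 1, V + 3⟩] := by
    refine (IP.single _).cons_of (Or.inr (Or.inr ⟨rfl, rfl, Or.inr (by simp only; ring)⟩)) ?_ ?_
    · intro y hy
      rw [List.mem_singleton] at hy
      subst hy
      simp
    · intro y hy g
      rw [List.mem_singleton] at hy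
      subst hy
      simp
  refine h.append h2 (Or.inr (Or.inr ⟨rfl, rfl, Or.inr (by simp only; ring)⟩)) ?_
  intro x hx y hy
  obtain ⟨k, h1, h2, h3, h4, h5⟩ := mem_seg hx
  simp only at h3 h4 h5
  have hy : (y.x = X ∧ y.u = 1 ∧ (y.v = V + 2 ∨ y.v = V + 3)) := by
    rcases List.mem_cons.1 hy with rfl | hy
    · simp
    · rw [List.mem_singleton] at hy
      subst hy
      simp
  refine cross_of ?_ ?_
  · omega
  · intro g
    unfold adj3 at g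
    simp only
    rcases g with ⟨a1, a2, a3 | a3⟩ | ⟨a1, a2, a3 | a3⟩ | ⟨a1, a2, a3 | a3⟩ <;>
      first
      | (exfalso; omega)
      | (refine ⟨⟨?_, ?_, ?_⟩, ?_, ?_, ?_⟩ <;> omega)

/-- the start of a path of kind `B` -/
def tBs (X : ℕ) : List P3 :=
  ⟨X, 1, 3⟩ :: ⟨X, 2, 3⟩ :: ⟨X, 3, 3⟩ :: rep ⟨-1, 0, 0⟩ [⟨X, 4, 3⟩] (X - 1)

theorem mem_tBs {X : ℕ} (hX : 4 ≤ X) {p : P3} (h : p ∈ tBs X) :
    (p.x = X ∧ p.u = 1 ∧ p.v = 3) ∨ (p.x = X ∧ p.v = 3 ∧ 2 ≤ p.u ∧ p.u ≤ 3) ∨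
      (p.u = 4 ∧ p.v = 3 ∧ 2 ≤ p.x ∧ p.x ≤ X) := by
  unfold tBs at h
  rcases List.mem_cons.1 h with rfl | h
  · simp
  · rcases List.mem_cons.1 h with rfl | h
    · simp
    · rcases List.mem_cons.1 h with rfl | h
      · simp
      · obtain ⟨k, h1, h2, h3, h4, h5⟩ := mem_seg h
        simp only at h3 h4 h5
        right; right
        refine ⟨?_, ?_, ?_, ?_⟩ <;> omega

theorem ip_tBs (X : ℕ) (hX : 4 ≤ X) : IP adj3 ⟨X, 1, 3⟩ ⟨2, 4, 3⟩ (tBs X) := by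
  obtain ⟨m, hm⟩ : ∃ m, X - 1 = m + 1 := ⟨X - 2, by omega⟩
  have h := seg_ip (w := ⟨-1, 0, 0⟩) (p := ⟨X, 4, 3⟩) (by simp) m
  have e : shk ⟨-1, 0, 0⟩ m ⟨X, 4, 3⟩ = ⟨2, 4, 3⟩ := by
    unfold shk
    ext <;> simp only <;> omega
  rw [e] at h
  unfold tBs
  rw [hm]
  have h2 : IP adj3 ⟨X, 3, 3⟩ ⟨2, 4, 3⟩ (⟨X, 3, 3⟩ :: rep ⟨-1, 0, 0⟩ [⟨X, 4, 3⟩] (m + 1)) := by
    refine h.cons_of (by unfold adj3; simp) ?_ ?_
    · intro y hy
      obtain ⟨k, h1, h2, h3, h4, h5⟩ := mem_seg hy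
      simp only at h3 h4 h5 ⊢
      omega
    · intro y hy g
      obtain ⟨k, h1, h2, h3, h4, h5⟩ := mem_seg hy
      unfold adj3 at g
      simp only at h3 h4 h5 g ⊢
      omega
  have h3 : IP adj3 ⟨X, 2, 3⟩ ⟨2, 4, 3⟩
      (⟨X, 2, 3⟩ :: ⟨X, 3, 3⟩ :: rep ⟨-1, 0, 0⟩ [⟨X, 4, 3⟩] (m + 1)) := by
    refine h2.cons_of (by unfold adj3; simp) ?_ ?_
    · intro y hy
      rcases List.mem_cons.1 hy with rfl | hy
      · simp
      · obtain ⟨k, h1, h2, h3, h4, h5⟩ := mem_seg hy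
        simp only at h3 h4 h5 ⊢
        omega
    · intro y hy g
      rcases List.mem_cons.1 hy with rfl | hy
      · simp
      · obtain ⟨k, h1, h2, h3, h4, h5⟩ := mem_seg hy
        unfold adj3 at g
        simp only at h3 h4 h5 g ⊢
        omega
  refine h3.cons_of (by unfold adj3; simp) ?_ ?_
  · intro y hy
    rcases List.mem_cons.1 hy with rfl | hy
    · simp
    · rcases List.mem_cons.1 hy with rfl | hy
      · simp
      · obtain ⟨k, h1, h2, h3, h4, h5⟩ := mem_seg hy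
        simp only at h3 h4 h5 ⊢
        omega
  · intro y hy g
    rcases List.mem_cons.1 hy with rfl | hy
    · simp
    · rcases List.mem_cons.1 hy with rfl | hy
      · unfold adj3 at g
        simp at g
      · obtain ⟨k, h1, h2, h3, h4, h5⟩ := mem_seg hy
        unfold adj3 at g
        simp only at h3 h4 h5 g ⊢
        omega

/-- the end of a path of kind `B` -/
def tBe (X : ℕ) (V : ℤ) : List P3 :=
  rep ⟨1, 0, 0⟩ [⟨1, 4, V + 3⟩] X ++ [⟨X, 3, V + 3⟩, ⟨X, 2, V + 3⟩, ⟨X, 1, V + 3⟩]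

theorem mem_tBe {X : ℕ} {V : ℤ} (_hX : 4 ≤ X) {p : P3} (h : p ∈ tBe X V) :
    (p.x = X ∧ p.u = 1 ∧ p.v = V + 3) ∨ (p.x = X ∧ p.v = V + 3 ∧ 2 ≤ p.u ∧ p.u ≤ 3) ∨
      (p.u = 4 ∧ p.v = V + 3 ∧ 1 ≤ p.x ∧ p.x ≤ X) := by
  unfold tBe at h
  simp only [List.mem_append, List.mem_cons, List.not_mem_nil, or_false] at h
  rcases h with h | rfl | rfl | rfl
  · obtain ⟨k, h1, h2, h3, h4, h5⟩ := mem_seg h
    simp only at h3 h4 h5
    right; right
    refine ⟨?_, ?_, ?_, ?_⟩ <;> omega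
  · simp
  · simp
  · simp

theorem ip_tBe (X : ℕ) (V : ℤ) (hX : 4 ≤ X) :
    IP adj3 ⟨1, 4, V + 3⟩ ⟨X, 1, V + 3⟩ (tBe X V) := by
  obtain ⟨m, hm⟩ : ∃ m, X = m + 1 := ⟨X - 1, by omega⟩
  have h := seg_ip (w := ⟨1, 0, 0⟩) (p := ⟨1, 4, V + 3⟩) (by simp) m
  have e : shk ⟨1, 0, 0⟩ m ⟨1, 4, V + 3⟩ = ⟨X, 4, V + 3⟩ := by
    unfold shk
    ext <;> simp only <;> omega
  rw [e, ← hm] at h
  unfold tBe
  have h2 : IP adj3 ⟨X, 3, V + 3⟩ ⟨X, 1, V + 3⟩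
      [⟨X, 3, V + 3⟩, ⟨X, 2, V + 3⟩, ⟨X, 1, V + 3⟩] := by
    have h3 : IP adj3 ⟨X, 2, V + 3⟩ ⟨X, 1, V + 3⟩ [⟨X, 2, V + 3⟩, ⟨X, 1, V + 3⟩] := by
      refine (IP.single _).cons_of (by unfold adj3; simp) ?_ ?_
      · intro y hy
        rw [List.mem_singleton] at hy
        subst hy
        simp
      · intro y hy g
        rw [List.mem_singleton] at hy
        subst hy
        simp
    refine h3.cons_of (by unfold adj3; simp) ?_ ?_
    · intro y hy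
      rcases List.mem_cons.1 hy with rfl | hy
      · simp
      · rw [List.mem_singleton] at hy
        subst hy
        simp
    · intro y hy g
      rcases List.mem_cons.1 hy with rfl | hy
      · simp
      · rw [List.mem_singleton] at hy
        subst hy
        unfold adj3 at g
        simp at g
  refine h.append h2 (by unfold adj3; simp) ?_
  intro x hx y hy
  obtain ⟨k, h1, h2, h3, h4, h5⟩ := mem_seg hx
  simp only at h3 h4 h5
  have hy : (y.x = X ∧ y.v = V + 3 ∧ (y.u = 3 ∨ y.u = 2 ∨ y.u = 1)) := by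
    simp only [List.mem_cons, List.not_mem_nil, or_false] at hy
    rcases hy with rfl | rfl | rfl <;> simp
  refine cross_of ?_ ?_
  · omega
  · intro g
    unfold adj3 at g
    simp only
    rcases g with ⟨a1, a2, a3 | a3⟩ | ⟨a1, a2, a3 | a3⟩ | ⟨a1, a2, a3 | a3⟩ <;>
      first
      | (exfalso; omega)
      | (refine ⟨⟨?_, ?_, ?_⟩, ?_, ?_, ?_⟩ <;> omega)

end Pool.Agent.Lib.MP_1a3405_co.Sn
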