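import Mathlib
import Pool.Agent.Lib.MP_1a3405_co.Sn.Fam

/-!
The base family in dimension `3`.
-/

namespace Pool.Agent.Lib.MP_1a3405_co.Sn

/-- a path of kind `A` -/
def tA (l H q N R W M X Y : ℕ) : List P3 :=
  tAs X ++ (tF3 l H q N R W M ++ tAe Y (M * W))

/-- a path of kind `B` -/
def tBB (l H q N R W M X Y : ℕ) : List P3 :=
  tBs X ++ ((tF3 l H q N R W M).map (sh ⟨-1, 3, 2⟩) ++ tBe Y (M * W))

theorem ip_tA (l H q N R W M X Y : ℕ) (hl : 4 ≤ l) (hH : 2 ≤ H) (hq : 1 ≤ q) (hN : 1 ≤ N)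
    (hR : R = 2 * H + 2) (hW : R + 1 ≤ W) (hM : 1 ≤ M) (hX : 4 ≤ X) (hY : 4 ≤ Y) :
    IP adj3 ⟨X, 1, 3⟩ ⟨Y, 1, M * W + 3⟩ (tA l H q N R W M X Y) := by
  have hV : 4 ≤ (M : ℤ) * W := by
    have h1 : (1 : ℤ) * W ≤ (M : ℤ) * W := mul_le_mul_of_nonneg_right (by omega) (by omega)
    omega
  have h1 : IP adj3 ⟨2, 1, 1⟩ ⟨Y, 1, M * W + 3⟩ (tF3 l H q N R W M ++ tAe Y (M * W)) := by
    refine (ip_tF3 l H q N R W M hl hH hq hN hR hW hM).append (ip_tAe Y _ hY)
      (Or.inr (Or.inr ⟨rfl, rfl, Or.inr rfl⟩)) ?_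
    intro x hx y hy
    obtain ⟨a1, a2, a3, -, -⟩ := pF3_facts (by omega) (by omega) (by omega) (by omega)
      (by omega) (by omega) (mem_tF3 (by omega) (by omega) hx)
    have b := mem_tAe hY hy
    refine cross_of ?_ ?_
    · intro hc
      rcases b with b | b | b <;> omega
    · intro h
      unfold adj3 at h
      simp only
      rcases b with b | b | b <;>
      rcases h with ⟨g1, g2, g3 | g3⟩ | ⟨g1, g2, g3 | g3⟩ | ⟨g1, g2, g3 | g3⟩ <;>
        first
        | (exfalso; omega)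
        | (refine ⟨⟨?_, ?_, ?_⟩, ?_, ?_, ?_⟩ <;> omega)
  refine (ip_tAs X hX).append h1 (Or.inl ⟨rfl, rfl, Or.inl rfl⟩) ?_
  intro x hx y hy
  have a := mem_tAs hX hx
  have b : (y.x ≤ 2) ∨ (4 ≤ y.v - 1) := by
    rw [List.mem_append] at hy
    rcases hy with hy | hy
    · obtain ⟨a1, a2, a3, -, -⟩ := pF3_facts (by omega) (by omega) (by omega) (by omega)
        (by omega) (by omega) (mem_tF3 (by omega) (by omega) hy)
      left; exact a2
    · have b := mem_tAe hY hy
      right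
      rcases b with b | b | b <;> omega
  refine cross_of ?_ ?_
  · intro hc
    rcases a with a | a | a <;> omega
  · intro h
    unfold adj3 at h
    simp only
    rcases a with a | a | a <;> rcases b with b | b <;>
    rcases h with ⟨g1, g2, g3 | g3⟩ | ⟨g1, g2, g3 | g3⟩ | ⟨g1, g2, g3 | g3⟩ <;>
      first
      | (exfalso; omega)
      | (refine ⟨⟨?_, ?_, ?_⟩, ?_, ?_, ?_⟩ <;> omega)

theorem ip_tBB (l H q N R W M X Y : ℕ) (hl : 4 ≤ l) (hH : 2 ≤ H) (hq : 1 ≤ q) (hN : 1 ≤ N)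
    (hR : R = 2 * H + 2) (hW : R + 1 ≤ W) (hM : 1 ≤ M) (hX : 4 ≤ X) (hY : 4 ≤ Y) :
    IP adj3 ⟨X, 1, 3⟩ ⟨Y, 1, M * W + 3⟩ (tBB l H q N R W M X Y) := by
  have hV : 4 ≤ (M : ℤ) * W := by
    have h1 : (1 : ℤ) * W ≤ (M : ℤ) * W := mul_le_mul_of_nonneg_right (by omega) (by omega)
    omega
  have h0 := (ip_tF3 l H q N R W M hl hH hq hN hR hW hM).shift ⟨-1, 3, 2⟩
  have e1 : sh ⟨-1, 3, 2⟩ ⟨2, 1, 1⟩ = ⟨1, 4, 3⟩ := rfl
  have e2 : sh ⟨-1, 3, 2⟩ ⟨2, 1, M * W⟩ = ⟨1, 4, M * W + 2⟩ := rfl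
  rw [e1, e2] at h0
  have hmem : ∀ y ∈ (tF3 l H q N R W M).map (sh ⟨-1, 3, 2⟩),
      (3 ≤ y.v ∧ y.v ≤ M * W + 2 ∧ 4 ≤ y.u) ∧ y.x ≤ 1 ∧ (y.v = M * W + 2 → y.x = 1 ∧ y.u = 4) := by
    intro y hy
    obtain ⟨z, hz, rfl⟩ := List.mem_map.1 hy
    obtain ⟨a1, a2, a3, -, -⟩ := pF3_facts (by omega) (by omega) (by omega) (by omega)
      (by omega) (by omega) (mem_tF3 (by omega) (by omega) hz)
    simp only [sh]
    refine ⟨⟨?_, ?_, ?_⟩, ?_, ?_⟩ <;> omega
  have h1 : IP adj3 ⟨1, 4, 3⟩ ⟨Y, 1, M * W + 3⟩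
      ((tF3 l H q N R W M).map (sh ⟨-1, 3, 2⟩) ++ tBe Y (M * W)) := by
    refine h0.append (ip_tBe Y _ hY)
      (Or.inr (Or.inr ⟨rfl, rfl, Or.inr (by simp only; ring)⟩)) ?_
    intro x hx y hy
    obtain ⟨a1, a2, a3⟩ := hmem x hx
    have b := mem_tBe hY hy
    refine cross_of ?_ ?_
    · intro hc
      rcases b with b | b | b <;> omega
    · intro h
      unfold adj3 at h
      simp only
      rcases b with b | b | b <;>
      rcases h with ⟨g1, g2, g3 | g3⟩ | ⟨g1, g2, g3 | g3⟩ | ⟨g1, g2, g3 | g3⟩ <;>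
        first
        | (exfalso; omega)
        | (refine ⟨⟨?_, ?_, ?_⟩, ?_, ?_, ?_⟩ <;> omega)
  refine (ip_tBs X hX).append h1 (Or.inl ⟨rfl, rfl, Or.inl rfl⟩) ?_
  intro x hx y hy
  have a := mem_tBs hX hx
  have b : (y.x ≤ 1 ∧ 4 ≤ y.u) ∨ (4 ≤ y.v - 1) := by
    rw [List.mem_append] at hy
    rcases hy with hy | hy
    · obtain ⟨a1, a2, a3⟩ := hmem y hy
      left
      exact ⟨a2, a1.2.2⟩
    · have b := mem_tBe hY hy
      right
      rcases b with b | b | b <;> omega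
  refine cross_of ?_ ?_
  · intro hc
    rcases a with a | a | a <;> omega
  · intro h
    unfold adj3 at h
    simp only
    rcases a with a | a | a <;> rcases b with b | b <;>
    rcases h with ⟨g1, g2, g3 | g3⟩ | ⟨g1, g2, g3 | g3⟩ | ⟨g1, g2, g3 | g3⟩ <;>
      first
      | (exfalso; omega)
      | (refine ⟨⟨?_, ?_, ?_⟩, ?_, ?_, ?_⟩ <;> omega)

theorem disj_AB (l H q N R W M X Y X' Y' : ℕ) (hl : 4 ≤ l) (hH : 3 ≤ H) (hq : 1 ≤ q)
    (hN : 1 ≤ N) (hR : R = 2 * H + 2) (hW : R + 1 ≤ W) (hM : 1 ≤ M) (hX : 4 ≤ X) (hY : 4 ≤ Y)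
    (hX' : 4 ≤ X') (hY' : 4 ≤ Y') (p : P3) (h1 : p ∈ tA l H q N R W M X Y)
    (h2 : p ∈ tBB l (H - 1) q N (R - 2) W M X' Y') :
    (p = ⟨X, 1, 3⟩ ∧ X = X') ∨ (p = ⟨Y, 1, M * W + 3⟩ ∧ Y = Y') := by
  have hV : 4 ≤ (M : ℤ) * W := by
    have h1 : (1 : ℤ) * W ≤ (M : ℤ) * W := mul_le_mul_of_nonneg_right (by omega) (by omega)
    omega
  have hmem : p ∈ (tF3 l (H - 1) q N (R - 2) W M).map (sh ⟨-1, 3, 2⟩) →
      pF3 l (H - 1) q N (R - 2) W M (p.x + 1) (p.u - 3) (p.v - 2) := by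
    intro hy
    obtain ⟨z, hz, rfl⟩ := List.mem_map.1 hy
    have h3 := mem_tF3 (by omega) (by omega) hz
    simp only [sh]
    have e1 : z.x + -1 + 1 = z.x := by ring
    have e2 : z.u + 3 - 3 = z.u := by ring
    have e3 : z.v + 2 - 2 = z.v := by ring
    have e4 : ((H - 1 : ℕ) : ℤ) = (H : ℤ) - 1 := by omega
    have e5 : ((R - 2 : ℕ) : ℤ) = (R : ℤ) - 2 := by omega
    rw [e1, e2, e3]
    rw [e4, e5] at h3
    exact h3
  unfold tA at h1
  unfold tBB at h2
  simp only [List.mem_append] at h1 h2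
  have ext3 : ∀ a b c : ℤ, p.x = a → p.u = b → p.v = c → p = ⟨a, b, c⟩ := by
    intro a b c ha hb hc
    exact P3.ext ha hb hc
  rcases h1 with h1 | h1 | h1
  · have a := mem_tAs hX h1
    rcases h2 with h2 | h2 | h2
    · have b := mem_tBs hX' h2
      rcases a with a | a | a
      · rcases b with b | b | b
        · left
          refine ⟨ext3 _ _ _ a.1 a.2.1 a.2.2, ?_⟩
          omega
        · omega
        · omega
      · omega
      · omega
    · have h3 := hmem h2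
      have b := pF3_facts (by omega) (by omega) (by omega) (by omega) (by omega) (by omega) h3
      exfalso
      omega
    · have b := mem_tBe hY' h2
      exfalso
      omega
  · have h4 := mem_tF3 (by omega) (by omega) h1
    have a := pF3_facts (by omega) (by omega) (by omega) (by omega) (by omega) (by omega) h4
    rcases h2 with h2 | h2 | h2
    · have b := mem_tBs hX' h2
      exfalso
      rcases b with b | b | b
      · omega
      · omega
      · obtain ⟨b1, b2, b3, b4⟩ := b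
        rw [b1, b2] at h4
        exact notF3 (by omega) (by omega) (by omega) (by omega) (by omega) (by omega) b3 h4
    · have h3 := hmem h2
      exact (disjF3 (by omega) (by omega) (by omega) (by omega) (by omega) (by omega) h4 h3).elim
    · have b := mem_tBe hY' h2
      exfalso
      omega
  · have a := mem_tAe hY h1
    rcases h2 with h2 | h2 | h2
    · have b := mem_tBs hX' h2
      exfalso
      omega
    · have h3 := hmem h2
      have b := pF3_facts (by omega) (by omega) (by omega) (by omega) (by omega) (by omega) h3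
      exfalso
      omega
    · have b := mem_tBe hY' h2
      right
      rcases a with a | a | a
      · rcases b with b | b | b
        · refine ⟨ext3 _ _ _ a.1 a.2.1 a.2.2, ?_⟩
          omega
        · omega
        · omega
      · omega
      · omega

theorem le_length_tF3 (l H q N R W M : ℕ) :
    M * N * q * ((2 * H - 1) * (2 * l + 4)) ≤ (tF3 l H q N R W M).length := by
  have h0 : (2 * H - 1) * (2 * l + 4) ≤ (tT l H).length := by
    rw [length_tT, ← add_mul]
    have : (2 * H - 1) * (2 * l + 4) ≤ (H + (H - 1)) * (2 * l + 4) :=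
      Nat.mul_le_mul_right _ (by omega)
    omega
  have h1 : q * (tT l H).length ≤ (tM l H q).length := by
    unfold tM tR
    rw [List.length_append, length_rep]
    exact Nat.le_add_right _ _
  have h2 : N * (tM l H q).length ≤ (tB l H q N R W).length := by
    unfold tB tN
    rw [List.length_append, length_rep]
    exact Nat.le_add_right _ _
  have h3 : (tF3 l H q N R W M).length = M * (tB l H q N R W).length := by
    unfold tF3
    rw [length_rep]
  rw [h3]
  calc M * N * q * ((2 * H - 1) * (2 * l + 4)) ≤ M * N * q * (tT l H).length :=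
        Nat.mul_le_mul_left _ h0
    _ = M * (N * (q * (tT l H).length)) := by ring
    _ ≤ M * (N * (tM l H q).length) :=
        Nat.mul_le_mul_left _ (Nat.mul_le_mul_left _ h1)
    _ ≤ M * (tB l H q N R W).length := Nat.mul_le_mul_left _ h2

/-- **The base family.** -/
theorem fam_base (C m l H q N W M : ℕ) (hl : 4 ≤ l) (hH : 3 ≤ H) (hq : 1 ≤ q)
    (hN : 1 ≤ N) (hW : 2 * H + 3 ≤ W) (hM : 1 ≤ M) (h1 : 2 * C + 2 + l + 4 * q ≤ m)
    (h2 : N * (4 * q + 4) + 2 * H ≤ m) (h3 : M * W + 3 ≤ m) :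
    Fam 2 C m (M * N * q * ((2 * H - 3) * (2 * l + 4))) := by
  have hV : 4 ≤ (M : ℤ) * W := by
    have h1 : (1 : ℤ) * W ≤ (M : ℤ) * W := mul_le_mul_of_nonneg_right (by omega) (by omega)
    omega
  have h2' : (N : ℤ) * (4 * q + 4) + 2 * H ≤ m := by exact_mod_cast h2
  have h3' : (M : ℤ) * W + 3 ≤ m := by exact_mod_cast h3
  set o : ℤ := l + 4 * q with ho
  refine ⟨fun i => emb o ⟨((4 + 2 * i : ℕ) : ℤ), 1, 3⟩,
    fun j => emb o ⟨((4 + 2 * j : ℕ) : ℤ), 1, M * W + 3⟩,
    fun i j => (tA l H q N (2 * H + 2) W M (4 + 2 * i) (4 + 2 * j)).map (emb o),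
    fun i j => (tBB l (H - 1) q N (2 * H + 2 - 2) W M (4 + 2 * i) (4 + 2 * j)).map (emb o),
    ?_, ?_⟩
  · intro i j hi hj
    have key : ∀ p : P3, (1 ≤ p.v ∧ p.v ≤ M * W + 3 ∧ 1 ≤ p.u ∧ p.u ≤ m) ∧
        1 - l - 4 * q ≤ p.x ∧ p.x ≤ 2 * C + 2 →
        (∀ t, 1 ≤ emb o p t ∧ emb o p t ≤ m) ∧
          emb o p 0 ≤ emb o ⟨((4 + 2 * j : ℕ) : ℤ), 1, M * W + 3⟩ 0 := by
      rintro p ⟨⟨a1, a2, a3, a4⟩, a5, a6⟩
      refine ⟨?_, ?_⟩
      · intro t
        fin_cases t
        · change 1 ≤ p.v ∧ p.v ≤ m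
          omega
        · change 1 ≤ p.u ∧ p.u ≤ m
          omega
        · change 1 ≤ p.x + o ∧ p.x + o ≤ m
          omega
      · change p.v ≤ M * W + 3
        exact a2
    refine ⟨?_, ?_, ?_, ?_, ?_, ?_⟩
    · exact (ip_tA l H q N (2 * H + 2) W M (4 + 2 * i) (4 + 2 * j) hl (by omega) hq hN rfl
        (by omega) hM (by omega) (by omega)).map (emb o) (emb_injective o) (adj_emb o)
    · exact (ip_tBB l (H - 1) q N (2 * H + 2 - 2) W M (4 + 2 * i) (4 + 2 * j) hl (by omega) hq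
        hN (by omega) (by omega) hM (by omega) (by omega)).map (emb o) (emb_injective o) (adj_emb o)
    · rw [List.length_map]
      unfold tA
      rw [List.length_append, List.length_append]
      have h4 := le_length_tF3 l H q N (2 * H + 2) W M
      have h5 : M * N * q * ((2 * H - 3) * (2 * l + 4)) ≤ M * N * q * ((2 * H - 1) * (2 * l + 4)) :=
        Nat.mul_le_mul_left _ (Nat.mul_le_mul_right _ (by omega))
      omega
    · rw [List.length_map]
      unfold tBB
      rw [List.length_append, List.length_append, List.length_map]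
      have h4 := le_length_tF3 l (H - 1) q N (2 * H + 2 - 2) W M
      have h5 : M * N * q * ((2 * H - 3) * (2 * l + 4)) ≤
          M * N * q * ((2 * (H - 1) - 1) * (2 * l + 4)) :=
        Nat.mul_le_mul_left _ (Nat.mul_le_mul_right _ (by omega))
      omega
    · intro p0 hp0
      obtain ⟨p, hp, rfl⟩ := List.mem_map.1 hp0
      apply key
      unfold tA at hp
      rw [List.mem_append, List.mem_append] at hp
      rcases hp with hp | hp | hp
      · have a := mem_tAs (by omega) hp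
        push_cast at a
        refine ⟨⟨?_, ?_, ?_, ?_⟩, ?_, ?_⟩ <;> omega
      · have a := pF3_facts (by omega) (by omega) (by omega) (by omega)
          (by omega) (by omega) (mem_tF3 (by omega) (by omega) hp)
        refine ⟨⟨?_, ?_, ?_, ?_⟩, ?_, ?_⟩ <;> omega
      · have a := mem_tAe (by omega) hp
        push_cast at a
        refine ⟨⟨?_, ?_, ?_, ?_⟩, ?_, ?_⟩ <;> omega
    · intro p0 hp0
      obtain ⟨p, hp, rfl⟩ := List.mem_map.1 hp0
      apply key
      unfold tBB at hp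
      rw [List.mem_append, List.mem_append] at hp
      rcases hp with hp | hp | hp
      · have a := mem_tBs (by omega) hp
        push_cast at a
        refine ⟨⟨?_, ?_, ?_, ?_⟩, ?_, ?_⟩ <;> omega
      · obtain ⟨z, hz, rfl⟩ := List.mem_map.1 hp
        have a := pF3_facts (by omega) (by omega) (by omega) (by omega)
          (by omega) (by omega) (mem_tF3 (by omega) (by omega) hz)
        have e4 : ((H - 1 : ℕ) : ℤ) = (H : ℤ) - 1 := by omega
        rw [e4] at a
        simp only [sh]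
        refine ⟨⟨?_, ?_, ?_, ?_⟩, ?_, ?_⟩ <;> omega
      · have a := mem_tBe (by omega) hp
        push_cast at a
        refine ⟨⟨?_, ?_, ?_, ?_⟩, ?_, ?_⟩ <;> omega
  · intro i j i' j' hi hj hi' hj' p0 hp0 hp0'
    obtain ⟨p, hp, rfl⟩ := List.mem_map.1 hp0
    obtain ⟨p', hp', he⟩ := List.mem_map.1 hp0'
    have := emb_injective o he
    subst this
    rcases disj_AB l H q N (2 * H + 2) W M _ _ _ _ hl hH hq hN rfl (by omega) hM
      (by omega) (by omega) (by omega) (by omega) p' hp hp' with ⟨h4, h5⟩ | ⟨h4, h5⟩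
    · left
      refine ⟨congrArg (emb o) h4, by omega⟩
    · right
      refine ⟨congrArg (emb o) h4, by omega⟩

end Pool.Agent.Lib.MP_1a3405_co.Sn
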