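import Mathlib
import Pool.Agent.Lib.MP_1a3405_co.Sn.Base

/-!
Stacking: a family in dimension `D + 1` gives a family in dimension `D + 2`.
-/

namespace Pool.Agent.Lib.MP_1a3405_co.Sn

/-- the point of slice `z` -/
def cz {D : ℕ} (z : ℤ) (p : Fin (D + 1) → ℤ) : Fin (D + 2) → ℤ := Fin.cons z p

theorem cz_zero {D : ℕ} (z : ℤ) (p : Fin (D + 1) → ℤ) : cz z p 0 = z := rfl

theorem cz_succ {D : ℕ} (z : ℤ) (p : Fin (D + 1) → ℤ) (i : Fin (D + 1)) :
    cz z p i.succ = p i := by
  unfold cz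
  exact Fin.cons_succ _ _ _

theorem cz_inj {D : ℕ} {z z' : ℤ} {p p' : Fin (D + 1) → ℤ} (h : cz z p = cz z' p') :
    z = z' ∧ p = p' := by
  refine ⟨congrFun h 0, ?_⟩
  funext i
  have := congrFun h i.succ
  rwa [cz_succ, cz_succ] at this

theorem cz_injective {D : ℕ} (z : ℤ) : Function.Injective (cz (D := D) z) :=
  fun _ _ h => (cz_inj h).2

theorem adj_cz {D : ℕ} (z z' : ℤ) (p p' : Fin (D + 1) → ℤ) :
    adjZ (cz z p) (cz z' p') ↔ (z = z' ∧ adjZ p p') ∨ (p = p' ∧ (z = z' + 1 ∨ z' = z + 1)) := by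
  constructor
  · rintro ⟨i, h1, h2⟩
    refine Fin.cases (fun h1 h2 => ?_) (fun i h1 h2 => ?_) i h1 h2
    · right
      refine ⟨?_, h2⟩
      funext j
      have := h1 j.succ (Fin.succ_ne_zero j)
      rwa [cz_succ, cz_succ] at this
    · left
      refine ⟨h1 0 (Fin.succ_ne_zero i).symm, i, ?_, ?_⟩
      · intro j hj
        have := h1 j.succ (fun h => hj (Fin.succ_inj.1 h))
        rwa [cz_succ, cz_succ] at this
      · rwa [cz_succ, cz_succ] at h2
  · rintro (⟨rfl, i, h1, h2⟩ | ⟨rfl, h⟩)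
    · refine ⟨i.succ, ?_, ?_⟩
      · intro j
        refine Fin.cases (fun _ => rfl) (fun j hj => ?_) j
        rw [cz_succ, cz_succ]
        exact h1 j (fun h => hj (by rw [h]))
      · rw [cz_succ, cz_succ]
        exact h2
    · refine ⟨0, ?_, h⟩
      intro j
      refine Fin.cases (fun h => absurd rfl h) (fun j _ => ?_) j
      rw [cz_succ, cz_succ]

theorem adj_cz_same {D : ℕ} (z : ℤ) (p p' : Fin (D + 1) → ℤ) :
    adjZ (cz z p) (cz z p') ↔ adjZ p p' := by
  rw [adj_cz]
  constructor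
  · rintro (⟨-, h⟩ | ⟨-, h | h⟩)
    · exact h
    · omega
    · omega
  · intro h
    exact Or.inl ⟨rfl, h⟩

/-- the stack of the lists `P 1, …, P n` -/
def stk {D : ℕ} (P : ℕ → List (Fin (D + 1) → ℤ)) : ℕ → List (Fin (D + 2) → ℤ)
  | 0 => []
  | n + 1 => stk P n ++ (P (n + 1)).map (cz ((n + 1 : ℕ) : ℤ))

theorem mem_stk {D : ℕ} {P : ℕ → List (Fin (D + 1) → ℤ)} {n : ℕ} {p : Fin (D + 2) → ℤ}
    (h : p ∈ stk P n) : ∃ z : ℕ, 1 ≤ z ∧ z ≤ n ∧ ∃ p' ∈ P z, p = cz (z : ℤ) p' := by
  induction n with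
  | zero => simp [stk] at h
  | succ n ih =>
    rw [stk, List.mem_append] at h
    rcases h with h | h
    · obtain ⟨z, h1, h2, h3⟩ := ih h
      exact ⟨z, h1, by omega, h3⟩
    · obtain ⟨p', hp', rfl⟩ := List.mem_map.1 h
      exact ⟨n + 1, by omega, le_refl _, p', hp', rfl⟩

theorem length_stk {D : ℕ} {P : ℕ → List (Fin (D + 1) → ℤ)} {N : ℕ} (n : ℕ)
    (h : ∀ z, 1 ≤ z → z ≤ n → N ≤ (P z).length) : n * N ≤ (stk P n).length := by
  induction n with
  | zero => simp
  | succ n ih =>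
    rw [stk, List.length_append, List.length_map]
    have h1 := ih fun z hz1 hz2 => h z hz1 (by omega)
    have h2 := h (n + 1) (by omega) (le_refl _)
    have h3 : (n + 1) * N = n * N + N := by ring
    omega

theorem ip_stk {D : ℕ} {P : ℕ → List (Fin (D + 1) → ℤ)} {s e : ℕ → Fin (D + 1) → ℤ} (M : ℕ)
    (h1 : ∀ z, 1 ≤ z → z ≤ M → IP adjZ (s z) (e z) (P z))
    (h2 : ∀ z, 1 ≤ z → z < M → s (z + 1) = e z)
    (h3 : ∀ z, 1 ≤ z → z < M → ∀ p ∈ P z, p ∈ P (z + 1) → p = e z) (n : ℕ) (hn : 1 ≤ n)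
    (hM : n ≤ M) : IP adjZ (cz 1 (s 1)) (cz (n : ℤ) (e n)) (stk P n) := by
  induction n with
  | zero => omega
  | succ n ih =>
    by_cases hn0 : n = 0
    · subst hn0
      have h := (h1 1 (le_refl _) hM).map (cz 1) (cz_injective 1) (adj_cz_same 1)
      simpa [stk] using h
    · have h := ih (by omega) (by omega)
      have h4 := (h1 (n + 1) (by omega) hM).map (cz ((n + 1 : ℕ) : ℤ)) (cz_injective _)
        (adj_cz_same _)
      rw [stk]
      refine h.append h4 ?_ ?_
      · rw [h2 n (by omega) (by omega), adj_cz]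
        right
        refine ⟨rfl, Or.inr ?_⟩
        push_cast
        ring
      · intro x hx y hy
        obtain ⟨z, hz1, hz2, x', hx', rfl⟩ := mem_stk hx
        obtain ⟨y', hy', rfl⟩ := List.mem_map.1 hy
        refine ⟨?_, ?_⟩
        · intro hc
          have := (cz_inj hc).1
          omega
        · intro hc
          rw [adj_cz] at hc
          rcases hc with ⟨hc, -⟩ | ⟨rfl, hc⟩
          · omega
          · have hzn : z = n := by omega
            subst hzn
            have h5 := h3 z (by omega) (by omega) x' hx' hy'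
            subst h5
            rw [h2 z (by omega) (by omega)]
            exact ⟨rfl, rfl⟩

/-- colours of the `a`-ends -/
def al (c i j M z : ℕ) : ℕ := if z = 1 then 4 + i else if z = M then 4 + j else c + z / 2 % 2

/-- colours of the `b`-ends -/
def be (c z : ℕ) : ℕ := c + (z + 1) / 2 % 2

/-- the paths in the slices -/
def slc {D : ℕ} (A B : ℕ → ℕ → List (Fin (D + 1) → ℤ)) (c i j M z : ℕ) :
    List (Fin (D + 1) → ℤ) :=
  if z % 2 = 1 then A (al c i j M z) (be c z) else (B (al c i j M z) (be c z)).reverse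

theorem al_lt {C c i j M z : ℕ} (hi : i < C) (hj : j < C) (hc : c ≤ 2) : al c i j M z < C + 4 := by
  unfold al
  split_ifs <;> omega

theorem be_lt {C c z : ℕ} (hc : c ≤ 2) : be c z < C + 4 := by
  unfold be
  omega

theorem ip_slc {D : ℕ} {C : ℕ} {a b : ℕ → Fin (D + 1) → ℤ}
    {A B : ℕ → ℕ → List (Fin (D + 1) → ℤ)}
    (hA : ∀ i j, i < C + 4 → j < C + 4 → IP adjZ (a i) (b j) (A i j))
    (hB : ∀ i j, i < C + 4 → j < C + 4 → IP adjZ (a i) (b j) (B i j))
    (hAB : ∀ i j i' j', i < C + 4 → j < C + 4 → i' < C + 4 → j' < C + 4 →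
      ∀ p ∈ A i j, p ∈ B i' j' → (p = a i ∧ i = i') ∨ (p = b j ∧ j = j'))
    {c i j M : ℕ} (hc : c ≤ 2) (hi : i < C) (hj : j < C) (hM : 4 ≤ M) (hM2 : M % 2 = 0) :
    IP adjZ (cz 1 (a (4 + i))) (cz (M : ℤ) (a (4 + j))) (stk (slc A B c i j M) M) := by
  have h := ip_stk (P := slc A B c i j M)
    (s := fun z => if z % 2 = 1 then a (al c i j M z) else b (be c z))
    (e := fun z => if z % 2 = 1 then b (be c z) else a (al c i j M z)) M ?_ ?_ ?_ M (by omega)
    (le_refl _)
  · have e1 : (if 1 % 2 = 1 then a (al c i j M 1) else b (be c 1)) = a (4 + i) := by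
      simp [al]
    have e2 : (if M % 2 = 1 then b (be c M) else a (al c i j M M)) = a (4 + j) := by
      rw [if_neg (by omega)]
      unfold al
      rw [if_neg (by omega), if_pos rfl]
    have e3 : IP adjZ (cz 1 (if 1 % 2 = 1 then a (al c i j M 1) else b (be c 1)))
      (cz (M : ℤ) (if M % 2 = 1 then b (be c M) else a (al c i j M M)))
      (stk (slc A B c i j M) M) := h
    rw [e1, e2] at e3
    exact e3
  · intro z hz1 hz2
    simp only [slc]
    by_cases hz : z % 2 = 1
    · rw [if_pos hz, if_pos hz, if_pos hz]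
      exact hA _ _ (al_lt hi hj hc) (be_lt hc)
    · rw [if_neg hz, if_neg hz, if_neg hz]
      exact (hB _ _ (al_lt hi hj hc) (be_lt hc)).reverse adjZ_symm
  · intro z hz1 hz2
    by_cases hz : z % 2 = 1
    · rw [if_pos hz, if_neg (by omega)]
      congr 1
      unfold be
      omega
    · rw [if_neg hz, if_pos (by omega)]
      congr 1
      unfold al
      rw [if_neg (by omega), if_neg (by omega), if_neg (by omega), if_neg (by omega)]
      omega
  · intro z hz1 hz2 p hp hp'
    simp only [slc] at hp hp' ⊢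
    by_cases hz : z % 2 = 1
    · rw [if_pos hz] at hp ⊢
      rw [if_neg (by omega), List.mem_reverse] at hp'
      rcases hAB _ _ _ _ (al_lt hi hj hc) (be_lt hc) (al_lt hi hj hc) (be_lt hc) p hp hp' with
        ⟨-, h⟩ | ⟨h, -⟩
      · exfalso
        unfold al at h
        split_ifs at h <;> omega
      · exact h
    · rw [if_neg hz] at hp ⊢
      rw [List.mem_reverse] at hp
      rw [if_pos (by omega)] at hp'
      rcases hAB _ _ _ _ (al_lt hi hj hc) (be_lt hc) (al_lt hi hj hc) (be_lt hc) p hp' hp with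
        ⟨h, h'⟩ | ⟨-, h⟩
      · rw [h, h']
      · exfalso
        unfold be at h
        omega

/-- **The stacking step.** -/
theorem fam_stack {D C m N M : ℕ} (h : Fam D (C + 4) m N) (hM : 4 ≤ M) (hM2 : M % 2 = 0)
    (hMm : M ≤ m) : Fam (D + 1) C m (M * N) := by
  obtain ⟨a, b, A, B, h1, h2⟩ := h
  have h2' : ∀ i j i' j', i < C + 4 → j < C + 4 → i' < C + 4 → j' < C + 4 →
      ∀ p ∈ B i j, p ∈ A i' j' → (p = a i ∧ i = i') ∨ (p = b j ∧ j = j') := by
    intro i j i' j' hi hj hi' hj' p hp hp'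
    rcases h2 i' j' i j hi' hj' hi hj p hp' hp with ⟨h, h'⟩ | ⟨h, h'⟩
    · left; exact ⟨by rw [h, h'], h'.symm⟩
    · right; exact ⟨by rw [h, h'], h'.symm⟩
  refine ⟨fun i => cz 1 (a (4 + i)), fun j => cz (M : ℤ) (a (4 + j)),
    fun i j => stk (slc A B 0 i j M) M, fun i j => stk (slc B A 2 i j M) M, ?_, ?_⟩
  · intro i j hi hj
    have key : ∀ A' B' : ℕ → ℕ → List (Fin (D + 1) → ℤ), ∀ c, c ≤ 2 →
        (∀ i j, i < C + 4 → j < C + 4 → N ≤ (A' i j).length ∧ N ≤ (B' i j).length ∧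
          (∀ p ∈ A' i j, ∀ t, 1 ≤ p t ∧ p t ≤ m) ∧ (∀ p ∈ B' i j, ∀ t, 1 ≤ p t ∧ p t ≤ m)) →
        M * N ≤ (stk (slc A' B' c i j M) M).length ∧
        (∀ p ∈ stk (slc A' B' c i j M) M, (∀ t, 1 ≤ p t ∧ p t ≤ m) ∧
          p 0 ≤ cz (M : ℤ) (a (4 + j)) 0) := by
      intro A' B' c hc hh
      refine ⟨?_, ?_⟩
      · apply length_stk
        intro z hz1 hz2
        unfold slc
        split_ifs with hz
        · exact (hh _ _ (al_lt hi hj hc) (be_lt hc)).1
        · rw [List.length_reverse]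
          exact (hh _ _ (al_lt hi hj hc) (be_lt hc)).2.1
      · intro p hp
        obtain ⟨z, hz1, hz2, p', hp', rfl⟩ := mem_stk hp
        refine ⟨?_, ?_⟩
        · intro t
          refine Fin.cases ?_ (fun t => ?_) t
          · rw [cz_zero]
            omega
          · rw [cz_succ]
            unfold slc at hp'
            split_ifs at hp' with hz
            · exact (hh _ _ (al_lt hi hj hc) (be_lt hc)).2.2.1 p' hp' t
            · rw [List.mem_reverse] at hp'
              exact (hh _ _ (al_lt hi hj hc) (be_lt hc)).2.2.2 p' hp' t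
        · rw [cz_zero, cz_zero]
          omega
    have kA := key A B 0 (by omega) fun i j hi hj => by
      obtain ⟨-, -, g3, g4, g5, g6⟩ := h1 i j hi hj
      exact ⟨g3, g4, fun p hp => (g5 p hp).1, fun p hp => (g6 p hp).1⟩
    have kB := key B A 2 (by omega) fun i j hi hj => by
      obtain ⟨-, -, g3, g4, g5, g6⟩ := h1 i j hi hj
      exact ⟨g4, g3, fun p hp => (g6 p hp).1, fun p hp => (g5 p hp).1⟩
    exact ⟨ip_slc (fun i j hi hj => (h1 i j hi hj).1) (fun i j hi hj => (h1 i j hi hj).2.1) h2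
        (by omega) hi hj hM hM2,
      ip_slc (fun i j hi hj => (h1 i j hi hj).2.1) (fun i j hi hj => (h1 i j hi hj).1) h2'
        (by omega) hi hj hM hM2, kA.1, kB.1, kA.2, kB.2⟩
  · intro i j i' j' hi hj hi' hj' p hp hp'
    simp only at hp hp' ⊢
    obtain ⟨z, hz1, hz2, q, hq, rfl⟩ := mem_stk hp
    obtain ⟨z', hz1', hz2', q', hq', he⟩ := mem_stk hp'
    obtain ⟨e1, e2⟩ := cz_inj he
    have e3 : z = z' := by exact_mod_cast e1
    subst e3
    subst e2
    simp only [slc] at hq hq'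
    have hcol : ∀ x y : ℕ, be 0 x ≠ be 2 y := by
      intro x y
      unfold be
      omega
    have hal : al 0 i j M z = al 2 i' j' M z → (z = 1 ∧ i = i') ∨ (z = M ∧ j = j') := by
      intro h
      unfold al at h
      split_ifs at h with g1 g2
      · left; exact ⟨g1, by omega⟩
      · right; exact ⟨g2, by omega⟩
      · omega
    have fin : q = a (al 0 i j M z) → al 0 i j M z = al 2 i' j' M z →
        (cz (z : ℤ) q = cz 1 (a (4 + i)) ∧ i = i') ∨
          (cz (z : ℤ) q = cz (M : ℤ) (a (4 + j)) ∧ j = j') := by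
      intro hq1 hq2
      rcases hal hq2 with ⟨rfl, hii⟩ | ⟨rfl, hjj⟩
      · left
        refine ⟨?_, hii⟩
        rw [hq1]
        simp [al]
      · right
        refine ⟨?_, hjj⟩
        rw [hq1]
        unfold al
        rw [if_neg (by omega), if_pos rfl]
    by_cases hz : z % 2 = 1
    · rw [if_pos hz] at hq hq'
      rcases h2 _ _ _ _ (al_lt hi hj (by omega)) (be_lt (by omega)) (al_lt hi' hj' (by omega))
        (be_lt (by omega)) q hq hq' with ⟨h, h'⟩ | ⟨-, h⟩
      · exact fin h h'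
      · exact absurd h (hcol _ _)
    · rw [if_neg hz, List.mem_reverse] at hq hq'
      rcases h2' _ _ _ _ (al_lt hi hj (by omega)) (be_lt (by omega)) (al_lt hi' hj' (by omega))
        (be_lt (by omega)) q hq hq' with ⟨h, h'⟩ | ⟨-, h⟩
      · exact fin h h'
      · exact absurd h (hcol _ _)

end Pool.Agent.Lib.MP_1a3405_co.Sn
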