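import Mathlib
import Pool.Agent.Lib.MP_1a3405_co.Lower
import Pool.Agent.Lib.MP_1a3405_co.Sn.Stack

/-!
From an induced path ending next to a facet to a lower bound for the maximum percolation time
with threshold `2 d - 1`.
-/

namespace Pool.Agent.Lib.MP_1a3405_co.Sn

theorem adjZ_nb {D : ℕ} (p : Fin D → ℤ) (δ : Fin D × Bool) : adjZ p (nb p δ) := by
  obtain ⟨i, b⟩ := δ
  refine ⟨i, ?_, ?_⟩
  · intro j hj
    simp only [nb, Function.update_of_ne hj]
  · simp only [nb, Function.update_self]
    cases b
    · left
      simp
    · right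
      simp

theorem exists_nb {D : ℕ} {p q : Fin D → ℤ} (h : adjZ p q) : ∃ δ, q = nb p δ := by
  obtain ⟨i, h1, h2 | h2⟩ := h
  · refine ⟨(i, false), ?_⟩
    funext j
    by_cases hj : j = i
    · subst hj
      simp only [nb, Function.update_self, Bool.false_eq_true, if_false]
      omega
    · simp only [nb, Function.update_of_ne hj]
      exact (h1 j hj).symm
  · refine ⟨(i, true), ?_⟩
    funext j
    by_cases hj : j = i
    · subst hj
      simp only [nb, Function.update_self, if_true]
      omega
    · simp only [nb, Function.update_of_ne hj]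
      exact (h1 j hj).symm

theorem card_dirs (D : ℕ) : (Set.univ : Set (Fin D × Bool)).ncard = 2 * D := by
  rw [Set.ncard_univ, Nat.card_eq_fintype_card, Fintype.card_prod, Fintype.card_fin,
    Fintype.card_bool]
  ring

theorem ncard_lt_of {D : ℕ} {S : Set (Fin D × Bool)} {δ₁ δ₂ : Fin D × Bool} (hne : δ₁ ≠ δ₂)
    (h1 : δ₁ ∉ S) (h2 : δ₂ ∉ S) : S.ncard < 2 * D - 1 := by
  classical
  have h3 : insert δ₁ (insert δ₂ S) ⊆ Set.univ := Set.subset_univ _
  have h4 := Set.ncard_le_ncard h3 (Set.toFinite _)
  rw [Set.ncard_insert_of_notMem (by simp [hne, h1]) (Set.toFinite _),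
    Set.ncard_insert_of_notMem h2 (Set.toFinite _), card_dirs] at h4
  omega

theorem le_ncard_of {D : ℕ} {S : Set (Fin D × Bool)} {δ₁ : Fin D × Bool}
    (h : ∀ δ, δ ≠ δ₁ → δ ∈ S) : 2 * D - 1 ≤ S.ncard := by
  classical
  have h3 : (Set.univ : Set (Fin D × Bool)) ⊆ insert δ₁ S := by
    intro δ _
    by_cases hδ : δ = δ₁
    · exact Or.inl hδ
    · exact Or.inr (h δ hδ)
  have h4 := Set.ncard_le_ncard h3 (Set.toFinite _)
  have h5 := Set.ncard_insert_le δ₁ S
  rw [card_dirs] at h4
  omega

/-- the translation into the grid -/
def tr {D : ℕ} (k : ℤ) (p : Fin (D + 1) → ℤ) : Fin (D + 1) → ℤ :=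
  fun t => if t = 0 then p t + k else p t + 1

theorem tr_injective {D : ℕ} (k : ℤ) : Function.Injective (tr (D := D) k) := by
  intro p q h
  funext t
  have := congrFun h t
  simp only [tr] at this
  split_ifs at this <;> omega

theorem adj_tr {D : ℕ} (k : ℤ) (p q : Fin (D + 1) → ℤ) : adjZ (tr k p) (tr k q) ↔ adjZ p q := by
  unfold adjZ tr
  constructor
  · rintro ⟨i, h1, h2⟩
    refine ⟨i, ?_, ?_⟩
    · intro j hj
      have := h1 j hj
      split_ifs at this <;> omega
    · split_ifs at h2 <;> omega
  · rintro ⟨i, h1, h2⟩
    refine ⟨i, ?_, ?_⟩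
    · intro j hj
      rw [h1 j hj]
    · split_ifs <;> omega

/-- **The certificate.** -/
theorem cert {D m : ℕ} {a b : Fin (D + 1) → ℤ} {L : List (Fin (D + 1) → ℤ)}
    (hL : IP adjZ a b L) (h1 : ∀ p ∈ L, (∀ t, 1 ≤ p t ∧ p t ≤ m) ∧ p 0 ≤ b 0) :
    L.length + 1 ≤ maxPercTime (grid (D + 1) (m + 2)) (2 * (D + 1) - 1) := by
  classical
  set k : ℤ := m + 1 - b 0 with hk
  have hb := h1 b hL.right_mem
  have hb0 := hb.1 0
  set f : Fin (D + 1) → ℤ := nb (tr k b) (0, true) with hf
  have hf0 : f 0 = m + 2 := by
    simp only [hf, nb, Function.update_self, tr, if_true]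
    rw [hk]
    ring
  have hft : ∀ t, t ≠ 0 → f t = b t + 1 := by
    intro t ht
    simp only [hf, nb, Function.update_of_ne ht, tr, if_neg ht]
  -- bounds in the translated list
  have hbd : ∀ p ∈ L.map (tr k), (∀ t, 2 ≤ p t ∧ p t ≤ m + 1) := by
    intro p0 hp0
    obtain ⟨p, hp, rfl⟩ := List.mem_map.1 hp0
    intro t
    have h2 := (h1 p hp).1 t
    simp only [tr]
    split_ifs with ht
    · subst ht
      have h3 := (h1 p hp).2
      omega
    · omega
  have hL' : IP adjZ (tr k a) f (L.map (tr k) ++ [f]) := by
    refine (hL.map (tr k) (tr_injective k) (adj_tr k)).snoc (adjZ_nb _ _) ?_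
    intro x hx
    have h2 := hbd x hx
    refine ⟨?_, ?_⟩
    · rintro rfl
      have := h2 0
      omega
    · rintro ⟨i, h3, h4⟩
      have hi : i = 0 := by
        by_contra hi
        have := h3 0 (fun h => hi h.symm)
        have := h2 0
        omega
      subst hi
      funext t
      by_cases ht : t = 0
      · subst ht
        have := h2 0
        simp only [tr, if_true]
        omega
      · have h5 := h3 t ht
        rw [hft t ht] at h5
        simp only [tr, if_neg ht]
        exact h5
  set L' := L.map (tr k) ++ [f] with hL'd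
  obtain ⟨τ, t1, t2, t3, t4, t5, t6, t7⟩ := hL'.exists_pos adjZ_irrefl adjZ_symm
  have hlen : L'.length = L.length + 1 := by
    rw [hL'd, List.length_append, List.length_map, List.length_singleton]
  -- neighbours of the other points are in the box
  have hbox : ∀ p ∈ L', ∀ δ, (p = f → δ ≠ (0, true)) → InBox (m + 2) (nb p δ) := by
    intro p hp δ hδ t
    rw [hL'd, List.mem_append, List.mem_singleton] at hp
    obtain ⟨i, c⟩ := δ
    rcases hp with hp | hp
    · have h2 := hbd p hp t
      simp only [nb]
      by_cases ht : t = i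
      · subst ht
        rw [Function.update_self]
        push_cast
        split_ifs <;> omega
      · rw [Function.update_of_ne ht]
        push_cast
        omega
    · subst hp
      have hδ := hδ rfl
      simp only [nb]
      have h2 := hb.1 t
      by_cases ht : t = i
      · subst ht
        rw [Function.update_self]
        push_cast
        by_cases ht0 : t = 0
        · subst ht0
          rw [hf0]
          cases c
          · simp only [Bool.false_eq_true, if_false]
            omega
          · exact absurd rfl hδ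
        · rw [hft t ht0]
          split_ifs <;> omega
      · rw [Function.update_of_ne ht]
        push_cast
        by_cases ht0 : t = 0
        · subst ht0
          rw [hf0]
          omega
        · rw [hft t ht0]
          omega
  have hnbox : ¬ InBox (m + 2) (nb f (0, true)) := by
    intro h
    have := h 0
    simp only [nb, Function.update_self, if_true] at this
    rw [hf0] at this
    push_cast at this
    omega
  have hfL : f ∈ L' := by simp [hL'd]
  have hbound := le_maxPercTime (d := D + 1) (n := m + 2) (2 * (D + 1) - 1) (fun p => p ∉ L') τ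
    ?_ ?_ (p₀ := f) ?_ (by simpa using hfL)
  · rw [t2, hlen] at hbound
    exact_mod_cast hbound
  · intro p hpB hp hτ
    rw [not_not] at hp
    have hpa : p ≠ tr k a := by
      rintro rfl
      omega
    obtain ⟨q, hq, hpq, hτq⟩ := t7 p hp hpa
    obtain ⟨δ₁, hδ₁⟩ := exists_nb hpq
    by_cases hpf : p = f
    · refine ncard_lt_of (δ₁ := δ₁) (δ₂ := (0, true)) ?_ ?_ ?_
      · rintro rfl
        rw [hpf] at hδ₁
        rw [hL'd, List.mem_append, List.mem_singleton] at hq
        rcases hq with hq | hq
        · have := hbd q hq 0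
          rw [hδ₁] at this
          simp only [nb, Function.update_self, if_true] at this
          rw [hf0] at this
          omega
        · rw [hq] at hδ₁
          have := congrFun hδ₁ 0
          simp only [nb, Function.update_self, if_true] at this
          omega
      · rintro ⟨-, h | h⟩
        · rw [← hδ₁] at h
          exact h hq
        · rw [← hδ₁] at h
          omega
      · rintro ⟨h, -⟩
        rw [hpf] at h
        exact hnbox h
    · obtain ⟨q', hq', hpq', hτq'⟩ := t6 p hp hpf
      obtain ⟨δ₂, hδ₂⟩ := exists_nb hpq'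
      refine ncard_lt_of (δ₁ := δ₁) (δ₂ := δ₂) ?_ ?_ ?_
      · rintro rfl
        rw [← hδ₂] at hδ₁
        rw [hδ₁] at hτq
        omega
      · rintro ⟨-, h | h⟩
        · rw [← hδ₁] at h
          exact h hq
        · rw [← hδ₁] at h
          omega
      · rintro ⟨-, h | h⟩
        · rw [← hδ₂] at h
          exact h hq'
        · rw [← hδ₂] at h
          omega
  · intro p hpB hp
    rw [not_not] at hp
    by_cases hpf : p = f
    · refine le_ncard_of (δ₁ := (0, true)) ?_
      intro δ hδ
      refine ⟨hbox p hp δ (fun _ => hδ), ?_⟩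
      by_cases hq : nb p δ ∈ L'
      · right
        have h5 := t5 p hp _ hq (adjZ_nb p δ)
        have h6 := (t3 _ hq).2
        rw [hpf] at h5 h6 ⊢
        omega
      · left; exact hq
    · obtain ⟨q', hq', hpq', hτq'⟩ := t6 p hp hpf
      obtain ⟨δ₂, hδ₂⟩ := exists_nb hpq'
      refine le_ncard_of (δ₁ := δ₂) ?_
      intro δ hδ
      refine ⟨hbox p hp δ (fun h => absurd h hpf), ?_⟩
      by_cases hq : nb p δ ∈ L'
      · right
        rcases t5 p hp _ hq (adjZ_nb p δ) with h5 | h5
        · exfalso
          have h6 := t4 _ hq q' hq' (by omega)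
          rw [hδ₂] at h6
          exact hδ (nb_injective p h6)
        · omega
      · left; exact hq
  · intro t
    by_cases ht : t = 0
    · subst ht
      rw [hf0]
      push_cast
      omega
    · rw [hft t ht]
      have := hb.1 t
      push_cast
      omega

end Pool.Agent.Lib.MP_1a3405_co.Sn
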