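import Mathlib

/-!
The signed adjacency matrix of the `4`-dimensional cube (Huang) and the resulting bound for the
part of an induced path in a cube.
-/

namespace Pool.Agent.Lib.MP_1a3405_co.Sn

/-- the vertices of the cube -/
abbrev Q4 : Type := Bool × Bool × Bool × Bool

/-- flips -/
def f0 (p : Q4) : Q4 := (!p.1, p.2.1, p.2.2.1, p.2.2.2)
def f1 (p : Q4) : Q4 := (p.1, !p.2.1, p.2.2.1, p.2.2.2)
def f2 (p : Q4) : Q4 := (p.1, p.2.1, !p.2.2.1, p.2.2.2)
def f3 (p : Q4) : Q4 := (p.1, p.2.1, p.2.2.1, !p.2.2.2)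

/-- sign -/
def sg (a : Bool) : ℝ := if a then -1 else 1

/-- the signed adjacency matrix of the `3`-cube -/
def A3 (u : Bool × Bool × Bool → ℝ) (p : Bool × Bool × Bool) : ℝ :=
  u (!p.1, p.2.1, p.2.2) + sg p.1 * u (p.1, !p.2.1, p.2.2) +
    sg p.1 * sg p.2.1 * u (p.1, p.2.1, !p.2.2)

/-- the eigenvector with upper half `u` -/
def xu (u : Bool × Bool × Bool → ℝ) (p : Q4) : ℝ :=
  if p.1 then 2 * u p.2 - A3 u p.2 else u p.2

theorem sg_sq (a : Bool) : sg a * sg a = 1 := by
  cases a <;> simp [sg]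

theorem sg_not (a : Bool) : sg (!a) = -sg a := by
  cases a <;> simp [sg]

theorem xu_eig (u : Bool × Bool × Bool → ℝ) (p : Q4) :
    2 * xu u p = xu u (f0 p) + sg p.1 * (xu u (f1 p) + sg p.2.1 * xu u (f2 p) +
      sg p.2.1 * sg p.2.2.1 * xu u (f3 p)) := by
  obtain ⟨e, a, b, c⟩ := p
  cases e <;> cases a <;> cases b <;> cases c <;>
    simp [xu, f0, f1, f2, f3, sg, A3] <;> ring

theorem abs_sg (a : Bool) : |sg a| = 1 := by
  cases a <;> simp [sg]

theorem xu_abs (u : Bool × Bool × Bool → ℝ) (p : Q4) :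
    2 * |xu u p| ≤ |xu u (f0 p)| + |xu u (f1 p)| + |xu u (f2 p)| + |xu u (f3 p)| := by
  have h : |2 * xu u p| = 2 * |xu u p| := by
    rw [abs_mul]
    norm_num
  rw [← h, xu_eig u p]
  have e1 : |sg p.1 * (xu u (f1 p) + sg p.2.1 * xu u (f2 p) +
      sg p.2.1 * sg p.2.2.1 * xu u (f3 p))| ≤ |xu u (f1 p)| + |xu u (f2 p)| + |xu u (f3 p)| := by
    rw [abs_mul, abs_sg, one_mul]
    refine (abs_add_three _ _ _).trans ?_
    rw [abs_mul, abs_mul, abs_mul, abs_sg, abs_sg]
    simp
  have e2 := abs_add_le (xu u (f0 p)) (sg p.1 * (xu u (f1 p) + sg p.2.1 * xu u (f2 p) +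
      sg p.2.1 * sg p.2.2.1 * xu u (f3 p)))
  linarith

/-- the linear map `u ↦ xu u` -/
def xuL : (Bool × Bool × Bool → ℝ) →ₗ[ℝ] (Q4 → ℝ) where
  toFun u := xu u
  map_add' u w := by
    funext p
    simp only [xu, A3, Pi.add_apply]
    split_ifs <;> ring
  map_smul' r u := by
    funext p
    simp only [xu, A3, Pi.smul_apply, smul_eq_mul, RingHom.id_apply]
    split_ifs <;> ring

/-- For each set `Z` of at most `7` vertices there is a nonzero vector vanishing on `Z`. -/
theorem exists_vec (Z : Finset Q4) (hZ : Z.card ≤ 7) : ∃ x : Q4 → ℝ, x ≠ 0 ∧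
    (∀ p ∈ Z, x p = 0) ∧ ∀ p, 2 * |x p| ≤ |x (f0 p)| + |x (f1 p)| + |x (f2 p)| + |x (f3 p)| := by
  classical
  let Φ : (Bool × Bool × Bool → ℝ) →ₗ[ℝ] (Z → ℝ) :=
    (LinearMap.funLeft ℝ ℝ (fun z : Z => (z : Q4))).comp xuL
  have hker : LinearMap.ker Φ ≠ ⊥ := by
    apply LinearMap.ker_ne_bot_of_finrank_lt
    rw [Module.finrank_fintype_fun_eq_card, Module.finrank_fintype_fun_eq_card]
    simp only [Fintype.card_coe, Fintype.card_prod, Fintype.card_bool]
    omega
  obtain ⟨u, hu, hu0⟩ := (Submodule.ne_bot_iff _).1 hker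
  refine ⟨xu u, ?_, ?_, xu_abs u⟩
  · intro h
    apply hu0
    funext q
    have := congrFun h (false, q)
    simpa [xu] using this
  · intro p hp
    have h1 : Φ u = 0 := LinearMap.mem_ker.1 hu
    have h2 := congrFun h1 ⟨p, hp⟩
    exact h2

/-- a convexity argument -/
theorem convex_zero {y : ℕ → ℝ} {T : ℕ} (h0 : y 0 = 0) (hT : y (T + 1) = 0)
    (h : ∀ k, 1 ≤ k → k ≤ T → 2 * |y k| ≤ |y (k - 1)| + |y (k + 1)|) : ∀ k ≤ T, y k = 0 := by
  have h1 : ∀ k, k ≤ T → |y k| ≤ |y (k + 1)| := by
    intro k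
    induction k with
    | zero =>
      intro _
      rw [h0, abs_zero]
      exact abs_nonneg _
    | succ k ih =>
      intro hk
      have h2 := h (k + 1) (by omega) hk
      have h3 := ih (by omega)
      rw [Nat.add_sub_cancel] at h2
      linarith
  have h2 : ∀ j, j ≤ T → y (T - j) = 0 := by
    intro j
    induction j with
    | zero =>
      intro _
      have h3 := h1 T (le_refl _)
      rw [hT, abs_zero] at h3
      exact abs_eq_zero.1 (le_antisymm h3 (abs_nonneg _))
    | succ j ih =>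
      intro hj
      have h3 := h1 (T - (j + 1)) (by omega)
      have e : T - (j + 1) + 1 = T - j := by omega
      rw [e, ih (by omega), abs_zero] at h3
      exact abs_eq_zero.1 (le_antisymm h3 (abs_nonneg _))
  intro k hk
  have := h2 (T - k) (by omega)
  rwa [show T - (T - k) = k by omega] at this

theorem flips_one (p r : Q4) (c : ℝ) (hc : 0 ≤ c) :
    (if f0 p = r then c else 0) + (if f1 p = r then c else 0) + (if f2 p = r then c else 0) +
      (if f3 p = r then c else 0) ≤ c := by
  have h01 : f0 p ≠ f1 p := by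
    obtain ⟨e, a, b, c⟩ := p
    simp [f0, f1]
  have h02 : f0 p ≠ f2 p := by
    obtain ⟨e, a, b, c⟩ := p
    simp [f0, f2]
  have h03 : f0 p ≠ f3 p := by
    obtain ⟨e, a, b, c⟩ := p
    simp [f0, f3]
  have h12 : f1 p ≠ f2 p := by
    obtain ⟨e, a, b, c⟩ := p
    simp [f1, f2]
  have h13 : f1 p ≠ f3 p := by
    obtain ⟨e, a, b, c⟩ := p
    simp [f1, f3]
  have h23 : f2 p ≠ f3 p := by
    obtain ⟨e, a, b, c⟩ := p
    simp [f2, f3]
  split_ifs with g0 g1 g2 g3 g2 g3 g3 <;> first
    | (exfalso; simp_all; done)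
    | linarith

/-- **The part of an induced path in a `4`-cube.** `F` is the set of indices, `b` the positions
in the cube. -/
theorem card_fibre_le (T : ℕ) (F : Finset ℕ) (hF : F ⊆ Finset.Icc 1 T) (b : ℕ → Q4)
    (hinj : ∀ j ∈ F, ∀ k ∈ F, b j = b k → j = k)
    (hadj : ∀ j ∈ F, ∀ k ∈ F, (f0 (b k) = b j ∨ f1 (b k) = b j ∨ f2 (b k) = b j ∨ f3 (b k) = b j) →
      j = k + 1 ∨ k = j + 1) : F.card ≤ 8 := by
  classical
  by_contra hcon
  push Not at hcon
  have hcard : (F.image b).card = F.card :=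
    Finset.card_image_of_injOn fun j hj k hk h => hinj j hj k hk h
  obtain ⟨x, hx0, hxZ, hx⟩ := exists_vec (F.image b)ᶜ (by
    rw [Finset.card_compl, hcard]
    have : Fintype.card Q4 = 16 := by
      simp only [Fintype.card_prod, Fintype.card_bool]
    omega)
  have hxS : ∀ p, x p ≠ 0 → ∃ j ∈ F, b j = p := by
    intro p hp
    by_contra hc
    apply hp
    apply hxZ
    rw [Finset.mem_compl, Finset.mem_image]
    exact hc
  set y : ℕ → ℝ := fun k => if k ∈ F then x (b k) else 0 with hy
  have y0 : y 0 = 0 := by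
    simp only [hy]
    rw [if_neg]
    intro h
    have := Finset.mem_Icc.1 (hF h)
    omega
  have yT : y (T + 1) = 0 := by
    simp only [hy]
    rw [if_neg]
    intro h
    have := Finset.mem_Icc.1 (hF h)
    omega
  have key : ∀ k, 1 ≤ k → k ≤ T → 2 * |y k| ≤ |y (k - 1)| + |y (k + 1)| := by
    intro k hk1 hk2
    by_cases hk : k ∈ F
    · have ek : y k = x (b k) := by
        simp only [hy]
        rw [if_pos hk]
      have hb : ∀ q, (f0 (b k) = q ∨ f1 (b k) = q ∨ f2 (b k) = q ∨ f3 (b k) = q) →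
          |x q| ≤ (if q = b (k - 1) then |y (k - 1)| else 0) +
            (if q = b (k + 1) then |y (k + 1)| else 0) := by
        intro q hq
        have n1 : 0 ≤ (if q = b (k - 1) then |y (k - 1)| else 0) := by
          split_ifs
          · exact abs_nonneg _
          · exact le_refl _
        have n2 : 0 ≤ (if q = b (k + 1) then |y (k + 1)| else 0) := by
          split_ifs
          · exact abs_nonneg _
          · exact le_refl _
        by_cases hxq : x q = 0
        · rw [hxq, abs_zero]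
          linarith
        · obtain ⟨j, hj, hjq⟩ := hxS q hxq
          have h1 := hadj j hj k hk (by rw [hjq]; exact hq)
          have ej : y j = x q := by
            simp only [hy]
            rw [if_pos hj, hjq]
          rcases h1 with h1 | h1
          · subst h1
            rw [if_pos hjq.symm, ej] at n2 ⊢
            linarith
          · subst h1
            rw [Nat.add_sub_cancel] at n1 ⊢
            rw [if_pos hjq.symm, ej] at n1 ⊢
            linarith
      have b0 := hb (f0 (b k)) (Or.inl rfl)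
      have b1 := hb (f1 (b k)) (Or.inr (Or.inl rfl))
      have b2 := hb (f2 (b k)) (Or.inr (Or.inr (Or.inl rfl)))
      have b3 := hb (f3 (b k)) (Or.inr (Or.inr (Or.inr rfl)))
      have c1 := flips_one (b k) (b (k - 1)) |y (k - 1)| (abs_nonneg _)
      have c2 := flips_one (b k) (b (k + 1)) |y (k + 1)| (abs_nonneg _)
      have h2 := hx (b k)
      rw [ek]
      linarith
    · have ek : y k = 0 := by
        simp only [hy]
        rw [if_neg hk]
      rw [ek, abs_zero, mul_zero]
      positivity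
  have hz := convex_zero y0 yT key
  apply hx0
  funext p
  by_contra hp
  obtain ⟨j, hj, hjp⟩ := hxS p hp
  have h1 := hz j (Finset.mem_Icc.1 (hF hj)).2
  simp only [hy] at h1
  rw [if_pos hj, hjp] at h1
  exact hp h1

end Pool.Agent.Lib.MP_1a3405_co.Sn
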