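import Mathlib
import Pool.Agent.Lib.MP_1a3405_co.Lower
import Pool.Agent.Lib.MP_1a3405_co.Sn.Cube

/-!
The upper bound for the maximum percolation time with threshold `2 d - 1`, `d ≥ 4`.
-/

namespace Pool.Agent.Lib.MP_1a3405_co.Sn

open Set

section Chain

variable {V : Type*} {G : SimpleGraph V} {r : ℕ} {A₀ : Set V}

/-- A vertex infected at time `t + 1 ≥ 2` has a neighbour infected at time `t`. -/
theorem exists_prev [Fintype V] (h : Percolates G r A₀) {v : V} {t : ℕ} (ht : 1 ≤ t)
    (hv : itime G r A₀ v = t + 1) : ∃ u, G.Adj u v ∧ itime G r A₀ u = t := by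
  by_contra hcon
  push Not at hcon
  obtain ⟨s, rfl⟩ : ∃ s, t = s + 1 := ⟨t - 1, by omega⟩
  have h1 : v ∈ infected G r A₀ (s + 1 + 1) := (mem_infected_iff h v _).2 (by omega)
  have h2 : v ∉ infected G r A₀ (s + 1) := by
    rw [mem_infected_iff h]
    omega
  apply h2
  rw [infected_succ] at h1
  rcases h1 with h1 | h1
  · exact h1
  · rw [infected_succ]
    right
    refine le_trans h1 (Set.ncard_le_ncard ?_ (Set.toFinite _))
    rintro u ⟨hu1, hu2⟩
    refine ⟨hu1, ?_⟩
    have h3 := hcon u hu1.symm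
    rw [mem_infected_iff h] at hu2 ⊢
    omega

theorem exists_chain [Fintype V] (h : Percolates G r A₀) (t : ℕ) (ht : 1 ≤ t) (v : V)
    (hv : itime G r A₀ v = t) : ∃ w : ℕ → V, (∀ k, 1 ≤ k → k ≤ t → itime G r A₀ (w k) = k) ∧
      w t = v ∧ ∀ k, 1 ≤ k → k < t → G.Adj (w k) (w (k + 1)) := by
  induction t generalizing v with
  | zero => omega
  | succ t ih =>
    by_cases ht0 : t = 0
    · subst ht0
      refine ⟨fun _ => v, ?_, rfl, ?_⟩
      · intro k hk1 hk2
        have : k = 1 := by omega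
        rw [this, hv]
      · intro k hk1 hk2
        omega
    · obtain ⟨u, hu1, hu2⟩ := exists_prev h (by omega) hv
      obtain ⟨w, w1, w2, w3⟩ := ih (by omega) u hu2
      refine ⟨fun k => if k = t + 1 then v else w k, ?_, by simp, ?_⟩
      · intro k hk1 hk2
        simp only
        split_ifs with hk
        · rw [hv, hk]
        · exact w1 k hk1 (by omega)
      · intro k hk1 hk2
        simp only
        rw [if_neg (by omega)]
        split_ifs with hk
        · have hkt : k = t := by omega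
          rw [hkt, w2]
          exact hu1
        · exact w3 k hk1 (by omega)

end Chain

theorem exists_time {V : Type*} {G : SimpleGraph V} {r : ℕ} {A₀ : Set V} [Fintype V]
    (h : Percolates G r A₀) (hT : 1 ≤ percTime G r A₀) :
    ∃ v, itime G r A₀ v = percTime G r A₀ := by
  by_contra hcon
  push Not at hcon
  obtain ⟨t, ht⟩ : ∃ t, percTime G r A₀ = t + 1 := ⟨percTime G r A₀ - 1, by omega⟩
  have h1 : infected G r A₀ t ≠ univ := not_infected_lt (by omega)
  apply h1
  rw [Set.eq_univ_iff_forall]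
  intro v
  rw [mem_infected_iff h]
  have h2 : v ∈ infected G r A₀ (percTime G r A₀) := by
    rw [infected_percTime h]
    trivial
  rw [mem_infected_iff h] at h2
  have := hcon v
  omega

theorem card_nbr_le {d n : ℕ} (v : Fin d → Fin n) : ((grid d n).neighborSet v).ncard ≤ 2 * d := by
  have h := ncard_nbrs v (fun _ => True)
  simp only [Set.ofPred_true, Set.inter_univ, and_true] at h
  rw [h]
  have h2 : {δ : Fin d × Bool | InBox n (nb (co v) δ)} ⊆ Set.univ := Set.subset_univ _
  have h3 := Set.ncard_le_ncard h2 (Set.toFinite _)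
  rw [Set.ncard_univ, Nat.card_eq_fintype_card, Fintype.card_prod, Fintype.card_fin,
    Fintype.card_bool] at h3
  omega

/-- A vertex with positive infection time has at most one neighbour which is not infected
earlier. -/
theorem later_unique {d n : ℕ} {A₀ : Set (Fin d → Fin n)}
    (h : Percolates (grid d n) (2 * d - 1) A₀) (v u₁ u₂ : Fin d → Fin n)
    (hv : 1 ≤ itime (grid d n) (2 * d - 1) A₀ v)
    (h1 : (grid d n).Adj v u₁) (h2 : (grid d n).Adj v u₂)
    (g1 : itime (grid d n) (2 * d - 1) A₀ v ≤ itime (grid d n) (2 * d - 1) A₀ u₁)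
    (g2 : itime (grid d n) (2 * d - 1) A₀ v ≤ itime (grid d n) (2 * d - 1) A₀ u₂) : u₁ = u₂ := by
  by_contra hne
  have h3 := le_card_earlier h v hv
  set S := {u | (grid d n).Adj v u ∧
    itime (grid d n) (2 * d - 1) A₀ u < itime (grid d n) (2 * d - 1) A₀ v} with hS
  have h4 : insert u₁ (insert u₂ S) ⊆ (grid d n).neighborSet v := by
    intro u hu
    rcases hu with rfl | rfl | hu
    · exact h1
    · exact h2
    · exact hu.1
  have h5 := Set.ncard_le_ncard h4 (Set.toFinite _)
  have m1 : u₂ ∉ S := by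
    intro hu
    have := hu.2
    omega
  have m2 : u₁ ∉ insert u₂ S := by
    rintro (hu | hu)
    · exact hne hu
    · have := hu.2
      omega
  rw [Set.ncard_insert_of_notMem m2 (Set.toFinite _),
    Set.ncard_insert_of_notMem m1 (Set.toFinite _)] at h5
  have h6 := card_nbr_le v
  omega

/-- block of a vertex -/
def blk {d n : ℕ} (v : Fin d → Fin n) : Fin d → ℕ :=
  fun i => if (i : ℕ) < 4 then ((v i : Fin n) : ℕ) / 2 else ((v i : Fin n) : ℕ)

/-- position of a vertex in its cube -/
def pos {d n : ℕ} (hd : 4 ≤ d) (v : Fin d → Fin n) : Q4 :=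
  (decide (((v ⟨0, by omega⟩ : Fin n) : ℕ) % 2 = 1), decide (((v ⟨1, by omega⟩ : Fin n) : ℕ) % 2 = 1),
    decide (((v ⟨2, by omega⟩ : Fin n) : ℕ) % 2 = 1),
    decide (((v ⟨3, by omega⟩ : Fin n) : ℕ) % 2 = 1))

theorem fin_cases4 {d : ℕ} (hd : 4 ≤ d) {P : Fin d → Prop} (h0 : P ⟨0, by omega⟩)
    (h1 : P ⟨1, by omega⟩) (h2 : P ⟨2, by omega⟩) (h3 : P ⟨3, by omega⟩)
    (h4 : ∀ i : Fin d, 4 ≤ (i : ℕ) → P i) (i : Fin d) : P i := by
  obtain ⟨i, hi⟩ := i
  by_cases c0 : i = 0
  · subst c0; exact h0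
  by_cases c1 : i = 1
  · subst c1; exact h1
  by_cases c2 : i = 2
  · subst c2; exact h2
  by_cases c3 : i = 3
  · subst c3; exact h3
  exact h4 _ (by simp only; omega)

theorem blk_small {d n : ℕ} {v w : Fin d → Fin n} (h : blk v = blk w) (i : Fin d)
    (hi : (i : ℕ) < 4) : ((v i : Fin n) : ℕ) / 2 = ((w i : Fin n) : ℕ) / 2 := by
  have := congrFun h i
  unfold blk at this
  rwa [if_pos hi, if_pos hi] at this

theorem blk_big {d n : ℕ} {v w : Fin d → Fin n} (h : blk v = blk w) (i : Fin d)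
    (hi : 4 ≤ (i : ℕ)) : v i = w i := by
  have := congrFun h i
  unfold blk at this
  rw [if_neg (by omega), if_neg (by omega)] at this
  exact Fin.ext this

theorem bit_eq {x y : ℕ} (h : x / 2 = y / 2)
    (h2 : decide (x % 2 = 1) = decide (y % 2 = 1)) : x = y := by
  rw [decide_eq_decide] at h2
  omega

theorem bit_ne {x y : ℕ} (h : x / 2 = y / 2)
    (h2 : (!decide (x % 2 = 1)) = decide (y % 2 = 1)) : x + 1 = y ∨ y + 1 = x := by
  rw [← decide_not, decide_eq_decide] at h2
  omega

theorem eq_of_blk_pos {d n : ℕ} (hd : 4 ≤ d) {v w : Fin d → Fin n} (h : blk v = blk w)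
    (h2 : pos hd v = pos hd w) : v = w := by
  unfold pos at h2
  simp only [Prod.mk.injEq] at h2
  obtain ⟨e0, e1, e2, e3⟩ := h2
  funext i
  refine fin_cases4 hd (P := fun i => v i = w i) ?_ ?_ ?_ ?_ ?_ i
  · exact Fin.ext (bit_eq (blk_small h _ (by simp only; omega)) e0)
  · exact Fin.ext (bit_eq (blk_small h _ (by simp only; omega)) e1)
  · exact Fin.ext (bit_eq (blk_small h _ (by simp only; omega)) e2)
  · exact Fin.ext (bit_eq (blk_small h _ (by simp only; omega)) e3)
  · exact fun i hi => blk_big h i hi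

theorem adj_of_flip {d n : ℕ} (hd : 4 ≤ d) {v w : Fin d → Fin n} (h : blk v = blk w)
    (h2 : f0 (pos hd v) = pos hd w ∨ f1 (pos hd v) = pos hd w ∨ f2 (pos hd v) = pos hd w ∨
      f3 (pos hd v) = pos hd w) : (grid d n).Adj v w := by
  unfold pos f0 f1 f2 f3 at h2
  simp only [Prod.mk.injEq] at h2
  have k0 := blk_small h ⟨0, by omega⟩ (by simp only; omega)
  have k1 := blk_small h ⟨1, by omega⟩ (by simp only; omega)
  have k2 := blk_small h ⟨2, by omega⟩ (by simp only; omega)
  have k3 := blk_small h ⟨3, by omega⟩ (by simp only; omega)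
  rcases h2 with ⟨e0, e1, e2, e3⟩ | ⟨e0, e1, e2, e3⟩ | ⟨e0, e1, e2, e3⟩ | ⟨e0, e1, e2, e3⟩
  · refine ⟨⟨0, by omega⟩, ?_, bit_ne k0 e0⟩
    intro i
    refine fin_cases4 hd (P := fun i => i ≠ ⟨0, by omega⟩ → v i = w i) ?_ ?_ ?_ ?_ ?_ i
    · exact fun hc => absurd rfl hc
    · exact fun _ => Fin.ext (bit_eq k1 e1)
    · exact fun _ => Fin.ext (bit_eq k2 e2)
    · exact fun _ => Fin.ext (bit_eq k3 e3)
    · exact fun i hi _ => blk_big h i hi
  · refine ⟨⟨1, by omega⟩, ?_, bit_ne k1 e1⟩
    intro i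
    refine fin_cases4 hd (P := fun i => i ≠ ⟨1, by omega⟩ → v i = w i) ?_ ?_ ?_ ?_ ?_ i
    · exact fun _ => Fin.ext (bit_eq k0 e0)
    · exact fun hc => absurd rfl hc
    · exact fun _ => Fin.ext (bit_eq k2 e2)
    · exact fun _ => Fin.ext (bit_eq k3 e3)
    · exact fun i hi _ => blk_big h i hi
  · refine ⟨⟨2, by omega⟩, ?_, bit_ne k2 e2⟩
    intro i
    refine fin_cases4 hd (P := fun i => i ≠ ⟨2, by omega⟩ → v i = w i) ?_ ?_ ?_ ?_ ?_ i
    · exact fun _ => Fin.ext (bit_eq k0 e0)
    · exact fun _ => Fin.ext (bit_eq k1 e1)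
    · exact fun hc => absurd rfl hc
    · exact fun _ => Fin.ext (bit_eq k3 e3)
    · exact fun i hi _ => blk_big h i hi
  · refine ⟨⟨3, by omega⟩, ?_, bit_ne k3 e3⟩
    intro i
    refine fin_cases4 hd (P := fun i => i ≠ ⟨3, by omega⟩ → v i = w i) ?_ ?_ ?_ ?_ ?_ i
    · exact fun _ => Fin.ext (bit_eq k0 e0)
    · exact fun _ => Fin.ext (bit_eq k1 e1)
    · exact fun _ => Fin.ext (bit_eq k2 e2)
    · exact fun hc => absurd rfl hc
    · exact fun i hi _ => blk_big h i hi

/-- the set of the possible blocks -/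
def blks (d n : ℕ) : Finset (Fin d → ℕ) :=
  Fintype.piFinset fun i => if (i : ℕ) < 4 then Finset.range ((n + 1) / 2) else Finset.range n

theorem card_blks (e n : ℕ) : (blks (4 + e) n).card = ((n + 1) / 2) ^ 4 * n ^ e := by
  unfold blks
  rw [Fintype.card_piFinset, Fin.prod_univ_add]
  congr 1
  · have : ∀ i : Fin 4, (if ((Fin.castAdd e i : Fin (4 + e)) : ℕ) < 4 then
        Finset.range ((n + 1) / 2) else Finset.range n).card = (n + 1) / 2 := by
      intro i
      rw [if_pos (by simp), Finset.card_range]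
    rw [Finset.prod_congr rfl fun i _ => this i]
    simp
  · have : ∀ i : Fin e, (if ((Fin.natAdd 4 i : Fin (4 + e)) : ℕ) < 4 then
        Finset.range ((n + 1) / 2) else Finset.range n).card = n := by
      intro i
      rw [if_neg (by simp), Finset.card_range]
    rw [Finset.prod_congr rfl fun i _ => this i]
    simp

theorem blk_mem {d n : ℕ} (v : Fin d → Fin n) : blk v ∈ blks d n := by
  unfold blks
  rw [Fintype.mem_piFinset]
  intro i
  unfold blk
  have := (v i).2
  split_ifs
  · rw [Finset.mem_range]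
    omega
  · rw [Finset.mem_range]
    exact this

/-- **Induced paths have density at most one half.** -/
theorem path_le {d n : ℕ} (hd : 4 ≤ d) (T : ℕ) (w : ℕ → Fin d → Fin n)
    (hinj : ∀ j k, 1 ≤ j → j ≤ T → 1 ≤ k → k ≤ T → w j = w k → j = k)
    (hadj : ∀ j k, 1 ≤ j → j ≤ T → 1 ≤ k → k ≤ T → (grid d n).Adj (w j) (w k) →
      j = k + 1 ∨ k = j + 1) : T ≤ 8 * (blks d n).card := by
  classical
  have h1 := Finset.card_le_mul_card_image_of_maps_to (s := Finset.Icc 1 T) (t := blks d n)
    (f := fun k => blk (w k)) (fun k _ => blk_mem _) 8 (by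
      intro β _
      apply card_fibre_le T _ (Finset.filter_subset _ _) (fun k => pos hd (w k))
      · intro j hj k hk h
        rw [Finset.mem_filter, Finset.mem_Icc] at hj hk
        exact hinj j k hj.1.1 hj.1.2 hk.1.1 hk.1.2
          (eq_of_blk_pos hd (by rw [hj.2, hk.2]) h)
      · intro j hj k hk h
        rw [Finset.mem_filter, Finset.mem_Icc] at hj hk
        have := hadj k j hk.1.1 hk.1.2 hj.1.1 hj.1.2
          (adj_of_flip hd (by rw [hj.2, hk.2]) h)
        omega)
  rw [Nat.card_Icc] at h1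
  omega

/-- **The upper bound.** -/
theorem upper {d n : ℕ} (hd : 4 ≤ d) : maxPercTime (grid d n) (2 * d - 1) ≤
    8 * (blks d n).card := by
  classical
  obtain ⟨⟨A₀, hA, hT⟩, -⟩ := isGreatest_maxPercTime (G := grid d n) (r := 2 * d - 1)
  rw [← hT]
  by_cases h0 : 1 ≤ percTime (grid d n) (2 * d - 1) A₀
  · obtain ⟨v, hv⟩ := exists_time hA h0
    obtain ⟨w, w1, -, w3⟩ := exists_chain hA _ h0 v hv
    have key : ∀ j k, 1 ≤ j → k ≤ percTime (grid d n) (2 * d - 1) A₀ → j < k →
        (grid d n).Adj (w j) (w k) → k = j + 1 := by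
      intro j k hj hk hjk ha
      have e1 := w1 j hj (by omega)
      have e2 := w1 k (by omega) hk
      have e3 := w1 (j + 1) (by omega) (by omega)
      have h1 := later_unique hA (w j) (w k) (w (j + 1)) (by omega) ha (w3 j hj (by omega))
        (by omega) (by omega)
      rw [h1] at e2
      omega
    apply path_le hd _ w
    · intro j k hj1 hj2 hk1 hk2 h
      have e1 := w1 j hj1 hj2
      have e2 := w1 k hk1 hk2
      rw [h] at e1
      omega
    · intro j k hj1 hj2 hk1 hk2 h
      rcases lt_trichotomy j k with hjk | hjk | hjk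
      · right; exact key j k hj1 hk2 hjk h
      · rw [hjk] at h
        exact absurd h ((grid d n).irrefl)
      · left; exact key k j hk1 hj2 hjk h.symm
  · omega

end Pool.Agent.Lib.MP_1a3405_co.Sn
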