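import Mathlib
import Pool.Agent.Lib.MP_1a3405_co.Sn.Cert
import Pool.Agent.Lib.MP_1a3405_co.Sn.Upper

/-!
The bounds with explicit errors.
-/

namespace Pool.Agent.Lib.MP_1a3405_co.Sn

theorem fam_iter {D m N M : ℕ} (e : ℕ) (hM : 4 ≤ M) (hM2 : M % 2 = 0) (hMm : M ≤ m) :
    ∀ C, Fam D (C + 4 * e) m N → Fam (D + e) C m (M ^ e * N) := by
  induction e with
  | zero =>
    intro C h
    simpa using h
  | succ e ih =>
    intro C h
    have h1 := ih (C + 4) (by
      have e1 : C + 4 + 4 * e = C + 4 * (e + 1) := by ring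
      rw [e1]
      exact h)
    have h2 := fam_stack h1 hM hM2 hMm
    have e2 : M * (M ^ e * N) = M ^ (e + 1) * N := by ring
    rw [e2] at h2
    exact h2

theorem lower_nat (e m l H q N W M M' : ℕ) (hl : 4 ≤ l) (hH : 3 ≤ H) (hq : 1 ≤ q)
    (hN : 1 ≤ N) (hW : 2 * H + 3 ≤ W) (hM : 1 ≤ M) (h1 : 2 * (1 + 4 * e) + 2 + l + 4 * q ≤ m)
    (h2 : N * (4 * q + 4) + 2 * H ≤ m) (h3 : M * W + 3 ≤ m) (hM' : 4 ≤ M') (hM2 : M' % 2 = 0)
    (hMm : M' ≤ m) :
    M' ^ e * (M * N * q * ((2 * H - 3) * (2 * l + 4))) ≤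
      maxPercTime (grid (2 + e + 1) (m + 2)) (2 * (2 + e + 1) - 1) := by
  have h := fam_iter e hM' hM2 hMm 1 (fam_base (1 + 4 * e) m l H q N W M hl hH hq hN hW hM h1 h2 h3)
  obtain ⟨a, b, A, B, hA, -⟩ := h
  obtain ⟨g1, -, g3, -, g5, -⟩ := hA 0 0 (by omega) (by omega)
  have h4 := cert g1 g5
  omega

theorem mul_lb {A B x y a b : ℝ} (hA : x * (1 - a) ≤ A) (hB : y * (1 - b) ≤ B) (hx : 0 ≤ x)
    (hy : 0 ≤ y) (ha : 0 ≤ a) (hb : 0 ≤ b) (ha1 : a ≤ 1) (hb1 : b ≤ 1) :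
    (x * y) * (1 - (a + b)) ≤ A * B := by
  have h1 : 0 ≤ x * (1 - a) := mul_nonneg hx (by linarith)
  have h2 : 0 ≤ y * (1 - b) := mul_nonneg hy (by linarith)
  have h3 : x * (1 - a) * (y * (1 - b)) ≤ A * B := mul_le_mul hA hB h2 (h1.trans hA)
  have h4 : x * (1 - a) * (y * (1 - b)) = (x * y) * (1 - (a + b)) + x * y * (a * b) := by ring
  have h5 : 0 ≤ x * y * (a * b) := by positivity
  linarith

theorem lower_sqrt (e n : ℕ) :
    (n : ℝ) ^ (3 + e) / 2 - (18 + 11 / 2 * e) * (n : ℝ) ^ (2 + e) * Real.sqrt n ≤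
      (maxPercTime (grid (2 + e + 1) n) (2 * (2 + e + 1) - 1) : ℝ) := by
  set t : ℝ := Real.sqrt n with ht
  have ht0 : 0 ≤ t := Real.sqrt_nonneg _
  have htt : t * t = n := Real.mul_self_sqrt (by positivity)
  have he0 : (0 : ℝ) ≤ e := by positivity
  have hn0 : (0 : ℝ) ≤ n := by positivity
  by_cases hbig : t ≤ 36 + 11 * e
  · -- trivial case
    have h1 : (n : ℝ) ^ (3 + e) = (n : ℝ) ^ (2 + e) * t * t := by
      rw [mul_assoc, htt]
      ring
    have h2 : 0 ≤ (n : ℝ) ^ (2 + e) * t := by positivity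
    have h3 : (n : ℝ) ^ (2 + e) * t * t ≤ (n : ℝ) ^ (2 + e) * t * (36 + 11 * e) :=
      mul_le_mul_of_nonneg_left hbig h2
    have h4 : (0 : ℝ) ≤ (maxPercTime (grid (2 + e + 1) n) (2 * (2 + e + 1) - 1) : ℝ) := by
      positivity
    rw [h1]
    nlinarith
  · push Not at hbig
    have ht36 : (36 : ℝ) < t := by linarith
    have htpos : 0 < t := by linarith
    have hn : 100 < (n : ℝ) := by nlinarith
    have hn' : 100 < n := by exact_mod_cast hn
    obtain ⟨m, rfl⟩ : ∃ m, n = m + 2 := ⟨n - 2, by omega⟩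
    have hmn : ((m + 2 : ℕ) : ℝ) = (m : ℝ) + 2 := by push_cast; ring
    rw [hmn] at htt hn hn0
    set s := Nat.sqrt m with hs
    have hs1 : s * s ≤ m := Nat.sqrt_le m
    have hs2 : m < (s + 1) * (s + 1) := Nat.lt_succ_sqrt m
    have hs1' : (s : ℝ) * s ≤ m := by exact_mod_cast hs1
    have hs2' : (m : ℝ) < (s + 1) * (s + 1) := by exact_mod_cast hs2
    have hs0 : (0 : ℝ) ≤ s := by positivity
    have hst : (s : ℝ) ≤ t := by
      by_contra hc
      push Not at hc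
      nlinarith
    have hst2 : t - 2 ≤ s := by
      by_contra hc
      push Not at hc
      have h5 : ((s : ℝ) + 1) * (s + 1) ≤ (t - 1) * (t - 1) := by
        apply mul_self_le_mul_self <;> linarith
      nlinarith
    have hs34 : (34 : ℝ) < s := by linarith
    have hs34' : 34 < s := by exact_mod_cast hs34
    have hse : (34 : ℝ) + 11 * e < s := by linarith
    have hse' : 34 + 11 * e < s := by exact_mod_cast hse
    -- parameters
    set W := 2 * s + 3 with hW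
    set M := (m - 3) / W with hM
    set N := (m - 2 * s) / (4 * s + 4) with hN
    set l := m - 2 * (1 + 4 * e) - 2 - 4 * s with hl
    set M' := m - m % 2 with hM'
    have hms : 34 * s + 11 * e * s ≤ m := by nlinarith
    have hes : 34 * e ≤ e * s := by nlinarith
    have hms2 : 34 * s + 11 * (e * s) ≤ m := by nlinarith
    have hM1 : W * M + (m - 3) % W = m - 3 := Nat.div_add_mod _ _
    have hM2 : (m - 3) % W < W := Nat.mod_lt _ (by omega)
    have hN1 : (4 * s + 4) * N + (m - 2 * s) % (4 * s + 4) = m - 2 * s := Nat.div_add_mod _ _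
    have hN2 : (m - 2 * s) % (4 * s + 4) < 4 * s + 4 := Nat.mod_lt _ (by omega)
    have hM3 : 1 ≤ M := by
      rw [hM, Nat.one_le_div_iff (by omega)]
      omega
    have hN3 : 1 ≤ N := by
      rw [hN, Nat.one_le_div_iff (by omega)]
      omega
    have hmain := lower_nat e m l s s N W M M' (by omega) (by omega) (by omega) hN3 (by omega) hM3
      (by omega) (by rw [mul_comm]; omega) (by rw [mul_comm]; omega) (by omega) (by omega)
      (by omega)
    -- the factors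
    set u : ℝ := 1 / t with hu
    have hu0 : 0 ≤ u := by positivity
    have hut : u * t = 1 := by
      rw [hu]
      field_simp
    have hue : (36 + 11 * (e : ℝ)) * u ≤ 1 := by
      rw [hu, mul_one_div, div_le_one htpos]
      linarith
    have hnu : ((m : ℝ) + 2) * u = t := by
      rw [← htt, mul_assoc, mul_comm t u, hut, mul_one]
    have F1 : ((m : ℝ) + 2) * (1 - 9 * u) ≤ (M : ℝ) * (2 * s + 3) := by
      have h1 : (m : ℤ) - 3 - (2 * s + 3) + 1 ≤ (M : ℤ) * (2 * s + 3) := by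
        have e1 : (W : ℤ) * M + ((m - 3) % W : ℕ) = ((m - 3 : ℕ) : ℤ) := by exact_mod_cast hM1
        have e2 : ((m - 3 : ℕ) : ℤ) = (m : ℤ) - 3 := by omega
        have e3 : (((m - 3) % W : ℕ) : ℤ) < W := by exact_mod_cast hM2
        have e4 : (W : ℤ) = 2 * s + 3 := by
          rw [hW]
          push_cast
          ring
        rw [e4] at e1 e3
        rw [e2] at e1
        linarith
      have h2 : (m : ℝ) - 3 - (2 * s + 3) + 1 ≤ (M : ℝ) * (2 * s + 3) := by exact_mod_cast h1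
      have h3 : ((m : ℝ) + 2) * (1 - 9 * u) = (m : ℝ) + 2 - 9 * t := by
        rw [← hnu]
        ring
      rw [h3]
      linarith
    have F2 : ((m : ℝ) + 2) * (1 - 11 * u) ≤ (N : ℝ) * (4 * s + 4) := by
      have h1 : (m : ℤ) - 2 * s - (4 * s + 4) + 1 ≤ (N : ℤ) * (4 * s + 4) := by
        have e1 : (4 * (s : ℤ) + 4) * N + ((m - 2 * s) % (4 * s + 4) : ℕ) =
            ((m - 2 * s : ℕ) : ℤ) := by exact_mod_cast hN1
        have e2 : ((m - 2 * s : ℕ) : ℤ) = (m : ℤ) - 2 * s := by omega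
        have e3 : (((m - 2 * s) % (4 * s + 4) : ℕ) : ℤ) < 4 * s + 4 := by exact_mod_cast hN2
        rw [e2] at e1
        linarith
      have h2 : (m : ℝ) - 2 * s - (4 * s + 4) + 1 ≤ (N : ℝ) * (4 * s + 4) := by exact_mod_cast h1
      have h3 : ((m : ℝ) + 2) * (1 - 11 * u) = (m : ℝ) + 2 - 11 * t := by
        rw [← hnu]
        ring
      rw [h3]
      linarith
    have F3 : (1 / 4 : ℝ) * (1 - 8 * u) ≤ (s : ℝ) * (2 * s - 3) / ((2 * s + 3) * (4 * s + 4)) := by
      have h1 : (1 - 8 * u) ≤ 1 - 4 / s := by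
        have h2 : 4 / (s : ℝ) ≤ 8 * u := by
          rw [hu, mul_one_div, div_le_div_iff₀ (by linarith) htpos]
          linarith
        linarith
      have h3 : (1 / 4 : ℝ) * (1 - 4 / s) ≤
          (s : ℝ) * (2 * s - 3) / ((2 * s + 3) * (4 * s + 4)) := by
        rw [le_div_iff₀ (by positivity)]
        have h4 : (1 / 4 : ℝ) * (1 - 4 / s) * ((2 * s + 3) * (4 * s + 4)) =
            ((s - 4) * (2 * s + 3) * (4 * s + 4)) / (4 * s) := by
          field_simp
        rw [h4, div_le_iff₀ (by linarith)]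
        nlinarith
      linarith
    have F4 : (2 * ((m : ℝ) + 2)) * (1 - (8 + 8 * e) * u) ≤ 2 * (l : ℝ) + 4 := by
      have h1 : (l : ℤ) = m - 2 * (1 + 4 * e) - 2 - 4 * s := by omega
      have h2 : (l : ℝ) = m - 2 * (1 + 4 * e) - 2 - 4 * s := by exact_mod_cast h1
      have h3 : (2 * ((m : ℝ) + 2)) * (1 - (8 + 8 * e) * u) =
          2 * ((m : ℝ) + 2) - 2 * (8 + 8 * e) * t := by
        rw [← hnu]
        ring
      rw [h3, h2]
      nlinarith
    have F5 : ((m : ℝ) + 2) * (1 - 3 * u) ≤ (M' : ℝ) := by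
      have h1 : (m : ℤ) - 1 ≤ M' := by omega
      have h2 : (m : ℝ) - 1 ≤ M' := by exact_mod_cast h1
      have h3 : ((m : ℝ) + 2) * (1 - 3 * u) = (m : ℝ) + 2 - 3 * t := by
        rw [← hnu]
        ring
      rw [h3]
      linarith
    have heu : 0 ≤ (e : ℝ) * u := by positivity
    have F6 : ((m : ℝ) + 2) ^ e * (1 - 3 * e * u) ≤ (M' : ℝ) ^ e := by
      have h1 : (((m : ℝ) + 2) * (1 - 3 * u)) ^ e ≤ (M' : ℝ) ^ e := by
        apply pow_le_pow_left₀ _ F5
        apply mul_nonneg hn0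
        linarith
      rw [mul_pow] at h1
      have h2 : 1 + (e : ℝ) * (-(3 * u)) ≤ (1 + -(3 * u)) ^ e :=
        one_add_mul_le_pow (by linarith) e
      have h3 : ((m : ℝ) + 2) ^ e * (1 - 3 * e * u) ≤ ((m : ℝ) + 2) ^ e * (1 - 3 * u) ^ e := by
        apply mul_le_mul_of_nonneg_left _ (by positivity)
        have e1 : (1 : ℝ) - 3 * e * u = 1 + (e : ℝ) * (-(3 * u)) := by ring
        have e2 : (1 : ℝ) - 3 * u = 1 + -(3 * u) := by ring
        rw [e1, e2]
        exact h2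
      exact h3.trans h1
    have G1 := mul_lb F1 F2 hn0 hn0 (by linarith) (by linarith) (by linarith) (by linarith)
    have G2 := mul_lb G1 F3 (by positivity) (by norm_num) (by linarith) (by linarith)
      (by linarith) (by linarith)
    have G3 := mul_lb G2 F4 (by positivity) (by positivity) (by linarith) (by nlinarith)
      (by linarith) (by nlinarith)
    have G4 := mul_lb F6 G3 (by positivity) (by positivity) (by nlinarith) (by nlinarith)
      (by nlinarith) (by nlinarith)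
    have hcast : (M' : ℝ) ^ e * ((M : ℝ) * (2 * s + 3) * ((N : ℝ) * (4 * s + 4)) *
        ((s : ℝ) * (2 * s - 3) / ((2 * s + 3) * (4 * s + 4))) * (2 * (l : ℝ) + 4)) =
        ((M' ^ e * (M * N * s * ((2 * s - 3) * (2 * l + 4))) : ℕ) : ℝ) := by
      have e1 : ((2 * s - 3 : ℕ) : ℝ) = 2 * (s : ℝ) - 3 := by
        have : ((2 * s - 3 : ℕ) : ℤ) = 2 * (s : ℤ) - 3 := by omega
        exact_mod_cast this
      push_cast
      rw [e1]
      field_simp
    rw [hcast] at G4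
    have hfin : ((M' ^ e * (M * N * s * ((2 * s - 3) * (2 * l + 4))) : ℕ) : ℝ) ≤
        (maxPercTime (grid (2 + e + 1) (m + 2)) (2 * (2 + e + 1) - 1) : ℝ) := by
      exact_mod_cast hmain
    refine le_trans (le_trans (le_of_eq ?_) G4) hfin
    rw [hmn]
    have e7 : ((m : ℝ) + 2) ^ (2 + e) * t = ((m : ℝ) + 2) ^ (3 + e) * u := by
      rw [← hnu]
      ring
    rw [mul_assoc, e7]
    ring

theorem upper_sqrt (e n : ℕ) :
    (maxPercTime (grid (4 + e) n) (2 * (4 + e) - 1) : ℝ) ≤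
      (n : ℝ) ^ (4 + e) / 2 + 15 / 2 * (n : ℝ) ^ (3 + e) := by
  have h1 := upper (d := 4 + e) (n := n) (by omega)
  rw [card_blks] at h1
  have h2 : (maxPercTime (grid (4 + e) n) (2 * (4 + e) - 1) : ℝ) ≤
      8 * ((((n + 1) / 2 : ℕ) : ℝ) ^ 4 * (n : ℝ) ^ e) := by exact_mod_cast h1
  refine h2.trans ?_
  rcases Nat.eq_zero_or_pos n with rfl | hn
  · norm_num
  have hn1 : (1 : ℝ) ≤ n := by exact_mod_cast hn
  have h3 : ((((n + 1) / 2 : ℕ) : ℝ)) ≤ ((n : ℝ) + 1) / 2 := by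
    have := Nat.cast_div_le (α := ℝ) (m := n + 1) (n := 2)
    push_cast at this
    exact this
  have h4 : ((((n + 1) / 2 : ℕ) : ℝ)) ^ 4 ≤ (((n : ℝ) + 1) / 2) ^ 4 :=
    pow_le_pow_left₀ (by positivity) h3 4
  have h5 : 8 * (((n : ℝ) + 1) / 2) ^ 4 ≤ (n : ℝ) ^ 4 / 2 + 15 / 2 * (n : ℝ) ^ 3 := by
    have e1 : 8 * (((n : ℝ) + 1) / 2) ^ 4 =
        (n : ℝ) ^ 4 / 2 + (4 * (n : ℝ) ^ 3 + 6 * n ^ 2 + 4 * n + 1) / 2 := by ring
    rw [e1]
    have a1 : (n : ℝ) ≤ n ^ 2 := by nlinarith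
    have a2 : (n : ℝ) ^ 2 ≤ n ^ 3 := by nlinarith [sq_nonneg (n : ℝ)]
    nlinarith
  have hne : (0 : ℝ) ≤ (n : ℝ) ^ e := by positivity
  calc 8 * ((((n + 1) / 2 : ℕ) : ℝ) ^ 4 * (n : ℝ) ^ e)
      ≤ 8 * ((((n : ℝ) + 1) / 2) ^ 4 * (n : ℝ) ^ e) := by
        apply mul_le_mul_of_nonneg_left _ (by norm_num)
        exact mul_le_mul_of_nonneg_right h4 hne
    _ = (8 * (((n : ℝ) + 1) / 2) ^ 4) * (n : ℝ) ^ e := by ring
    _ ≤ ((n : ℝ) ^ 4 / 2 + 15 / 2 * (n : ℝ) ^ 3) * (n : ℝ) ^ e :=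
        mul_le_mul_of_nonneg_right h5 hne
    _ = _ := by ring

end Pool.Agent.Lib.MP_1a3405_co.Sn
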